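import Pool.Agent.Lib_helper8.QP.Defs

/-! Block T5 (helper83): `step_inf`, `step_mean`, `rs_mean_sq`. -/

set_option autoImplicit false
set_option linter.unusedSectionVars false

open Finset Polynomial

namespace Pool.Agent.Lib_helper83.QP

open Pool.Agent.Lib_helper30.AA Pool.Agent.Lib_helper8.QP

variable {I : Type} [Fintype I] [DecidableEq I]

lemma sg_sq (b : Bool) : sg b * sg b = 1 := by cases b <;> simp [sg]

lemma sg_not (b : Bool) : sg (!b) = - sg b := by cases b <;> simp [sg]

lemma sg_cases (b : Bool) : sg b = 1 ∨ sg b = -1 := by cases b <;> simp [sg]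

lemma av_add (g h : (I → Bool) → ℝ) : av (fun x => g x + h x) = av g + av h := by
  unfold av; rw [Finset.sum_add_distrib, mul_add]

lemma av_const_mul (c : ℝ) (g : (I → Bool) → ℝ) : av (fun x => c * g x) = c * av g := by
  unfold av; rw [← Finset.mul_sum]; ring

lemma av_mono {g h : (I → Bool) → ℝ} (H : ∀ x, g x ≤ h x) : av g ≤ av h := by
  unfold av
  exact mul_le_mul_of_nonneg_left (Finset.sum_le_sum fun x _ => H x) (by positivity)

lemma av_congr {g h : (I → Bool) → ℝ} (H : ∀ x, g x = h x) : av g = av h := by
  have : g = h := funext H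
  rw [this]

lemma av_flip (i : I) (g : (I → Bool) → ℝ) : av (fun x => g (flip i x)) = av g := by
  unfold av
  congr 1
  exact Equiv.sum_comp (flipEquiv i) g

lemma av_eq_half (i : I) (g : (I → Bool) → ℝ) :
    av g = av (fun x => (g x + g (flip i x)) / 2) := by
  have h1 : av (fun x => (g x + g (flip i x)) / 2) =
      (1 / 2) * (av g + av (fun x => g (flip i x))) := by
    rw [← av_add, ← av_const_mul]
    exact av_congr fun x => by ring
  rw [h1, av_flip]; ring

lemma av_eq_zero_of_flip (i : I) {g : (I → Bool) → ℝ} (h : ∀ x, g (flip i x) = - g x) :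
    av g = 0 := by
  rw [av_eq_half i g]
  have : (fun x => (g x + g (flip i x)) / 2) = fun _ : I → Bool => (0 : ℝ) := by
    funext x; rw [h]; ring
  rw [this]; simp [av]

lemma flip_self_apply (i : I) (x : I → Bool) : flip i x i = !x i := by simp [Lib_helper30.AA.flip]

lemma update_flip (i : I) (x : I → Bool) (b : Bool) :
    Function.update (flip i x) i b = Function.update x i b := by
  unfold Lib_helper30.AA.flip; simp

/-- Average with one coordinate frozen. -/
lemma av_update (i : I) (b : Bool) (g : (I → Bool) → ℝ) :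
    av (fun x => g (Function.update x i b)) = av g + sg b * av (fun x => sg (x i) * g x) := by
  rw [← av_const_mul, ← av_add]
  rw [av_eq_half i (fun x => g x + sg b * (sg (x i) * g x))]
  refine av_congr fun x => ?_
  have h1 : ∀ x : I → Bool, x i = b → Function.update x i b = x := by
    intro x hx; rw [← hx]; exact Function.update_eq_self i x
  by_cases hb : x i = b
  · rw [h1 x hb, flip_self_apply, hb, sg_not]
    have := sg_sq b
    linear_combination (-(g x) / 2 + g (flip i x) / 2) * this
  · have hb' : flip i x i = b := by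
      rw [flip_self_apply]; cases hx : x i <;> cases b <;> simp_all
    have h2 : Function.update x i b = flip i x := by
      rw [← update_flip, h1 _ hb']
    have h3 : sg (x i) = - sg b := by
      cases hx : x i <;> cases b <;> simp_all [sg]
    rw [h2, hb', h3]
    have := sg_sq b
    linear_combination (-(g (flip i x)) / 2 + g x / 2) * this

lemma res_flip {R : Finset I} {i : I} (hi : i ∉ R) (z : I → Bool) (f : (I → Bool) → ℝ) :
    res R (flip i z) f = res R z f := by
  funext x
  unfold res
  congr 1
  funext k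
  by_cases hk : k ∈ R
  · have : k ≠ i := by rintro rfl; exact hi hk
    simp [hk, flip_apply_of_ne this]
  · simp [hk]

lemma res_insert {R : Finset I} {i : I} (hi : i ∉ R) (z : I → Bool) (f : (I → Bool) → ℝ)
    (x : I → Bool) :
    res (insert i R) z f x = res R z f (Function.update x i (z i)) := by
  unfold res
  congr 1
  funext k
  by_cases hk : k = i
  · subst hk; simp [hi]
  · by_cases hkR : k ∈ R
    · simp [hkR]
    · simp [hkR, hk]

lemma D_res_insert_self {R : Finset I} {i : I} (hi : i ∉ R) (z : I → Bool) (f : (I → Bool) → ℝ)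
    (x : I → Bool) : D i (res (insert i R) z f) x = 0 := by
  unfold D
  rw [res_insert hi, res_insert hi]
  simp

lemma D_res_insert {R : Finset I} {i j : I} (hi : i ∉ R) (hij : j ≠ i) (z : I → Bool)
    (f : (I → Bool) → ℝ) (x : I → Bool) :
    D j (res (insert i R) z f) x = D j (res R z f) (Function.update x i (z i)) := by
  unfold D
  rw [res_insert hi, res_insert hi, Function.update_comm hij, Function.update_comm hij]

lemma inf_nonneg (f : (I → Bool) → ℝ) (j : I) : 0 ≤ inf f j := by
  unfold Lib_helper8.QP.inf av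
  exact mul_nonneg (by positivity) (Finset.sum_nonneg fun x _ => sq_nonneg _)

lemma inf_insert_self {R : Finset I} {i : I} (hi : i ∉ R) (z : I → Bool) (f : (I → Bool) → ℝ) :
    inf (res (insert i R) z f) i = 0 := by
  unfold Lib_helper8.QP.inf
  have : (fun x => D i (res (insert i R) z f) x ^ 2) = fun _ : I → Bool => (0 : ℝ) := by
    funext x; rw [D_res_insert_self hi]; ring
  rw [this]; simp [av]

lemma inf_insert {R : Finset I} {i j : I} (hi : i ∉ R) (hij : j ≠ i) (z : I → Bool)
    (f : (I → Bool) → ℝ) :
    inf (res (insert i R) z f) j = inf (res R z f) j + sg (z i) * vv (res R z f) i j := by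
  unfold Lib_helper8.QP.inf vv
  rw [← av_update i (z i) (fun x => D j (res R z f) x ^ 2)]
  exact av_congr fun x => by rw [D_res_insert hi hij]

lemma abs_vv_le' (f : (I → Bool) → ℝ) (i j : I) : |vv f i j| ≤ inf f j := by
  have h1 : vv f i j ≤ inf f j := by
    refine av_mono fun x => ?_
    rcases sg_cases (x i) with h | h <;> rw [h] <;> nlinarith [sq_nonneg (D j f x)]
  have h2 : -inf f j ≤ vv f i j := by
    have h3 : -inf f j = av (fun x => (-1) * D j f x ^ 2) := by rw [av_const_mul]; unfold Lib_helper8.QP.inf; ring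
    rw [h3]
    refine av_mono fun x => ?_
    rcases sg_cases (x i) with h | h <;> rw [h] <;> nlinarith [sq_nonneg (D j f x)]
  exact abs_le.2 ⟨h2, h1⟩

/-- The scalar inequality. -/
lemma scalar_step {α m v : ℝ} (hα : 0 < α) (hα1 : α ≤ 1) (hm : 0 ≤ m) (hv : |v| ≤ m) :
    ((m + v) ^ (1 + α) + (m - v) ^ (1 + α)) / 2 ≤ m ^ (1 + α) + α * (m ^ α * (v ^ 2 / m)) := by
  rcases hm.eq_or_lt with h0 | h0
  · have hv0 : v = 0 := by
      rw [← h0] at hv; exact abs_eq_zero.1 (le_antisymm hv (abs_nonneg v))
    subst hv0
    rw [← h0]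
    have : (0 : ℝ) ^ (1 + α) = 0 := Real.zero_rpow (by linarith)
    simp [this]
  · obtain ⟨t, ht⟩ : ∃ t, t = v / m := ⟨_, rfl⟩
    have hvt : v = t * m := by rw [ht]; field_simp
    have ht1 : |t| ≤ 1 := by
      rw [ht, abs_div, abs_of_pos h0]; exact (div_le_one h0).2 hv
    obtain ⟨ht2, ht3⟩ := abs_le.1 ht1
    have key : ∀ s : ℝ, -1 ≤ s → (m + s * m) ^ (1 + α) ≤ m ^ (1 + α) * ((1 + s) * (1 + α * s)) := by
      intro s hs
      have e1 : m + s * m = m * (1 + s) := by ring
      have hs' : 0 ≤ 1 + s := by linarith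
      rw [e1, Real.mul_rpow h0.le hs']
      refine mul_le_mul_of_nonneg_left ?_ (by positivity)
      rw [Real.rpow_add_of_nonneg hs' zero_le_one hα.le, Real.rpow_one]
      exact mul_le_mul_of_nonneg_left
        (_root_.rpow_one_add_le_one_add_mul_self hs hα.le hα1) hs'
    have h1 := key t ht2
    have h2 := key (-t) (by linarith)
    have e2 : m - v = m + (-t) * m := by rw [hvt]; ring
    have e3 : m + v = m + t * m := by rw [hvt]
    rw [e2, e3]
    have e4 : m ^ α * (v ^ 2 / m) = m ^ (1 + α) * t ^ 2 := by
      rw [hvt, Real.rpow_add h0, Real.rpow_one]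
      field_simp
    rw [e4]
    nlinarith [h1, h2]

theorem step_inf {α : ℝ} (hα : 0 < α) (hα1 : α ≤ 1) (f : (I → Bool) → ℝ) {R : Finset I} {i : I}
    (hi : i ∉ R) :
    av (fun z => ∑ j, inf (res (insert i R) z f) j ^ (1 + α)) ≤
      av (fun z => ∑ j, inf (res R z f) j ^ (1 + α) +
        α * ∑ j, inf (res R z f) j ^ α * (vv (res R z f) i j ^ 2 / inf (res R z f) j)) := by
  rw [av_eq_half i (fun z => ∑ j, inf (res (insert i R) z f) j ^ (1 + α))]
  refine av_mono fun z => ?_
  rw [Finset.mul_sum, ← Finset.sum_add_distrib, ← Finset.sum_add_distrib, Finset.sum_div]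
  refine Finset.sum_le_sum fun j _ => ?_
  have hm := inf_nonneg (res R z f) j
  by_cases hij : j = i
  · subst hij
    rw [inf_insert_self hi, inf_insert_self hi, Real.zero_rpow (by linarith)]
    have : 0 ≤ inf (res R z f) j ^ α * (vv (res R z f) j j ^ 2 / inf (res R z f) j) := by positivity
    have h2 : 0 ≤ inf (res R z f) j ^ (1 + α) := by positivity
    nlinarith
  · rw [inf_insert hi hij, inf_insert hi hij, res_flip hi, flip_self_apply, sg_not]
    have h := scalar_step hα hα1 hm (abs_vv_le' (res R z f) i j)
    rcases sg_cases (z i) with hs | hs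
    · rw [hs]
      have e1 : inf (res R z f) j + 1 * vv (res R z f) i j =
        inf (res R z f) j + vv (res R z f) i j := by ring
      have e2 : inf (res R z f) j + -1 * vv (res R z f) i j =
        inf (res R z f) j - vv (res R z f) i j := by ring
      rw [e1, e2]; exact h
    · rw [hs]
      have e1 : inf (res R z f) j + - -1 * vv (res R z f) i j =
        inf (res R z f) j + vv (res R z f) i j := by ring
      have e2 : inf (res R z f) j + -1 * vv (res R z f) i j =
        inf (res R z f) j - vv (res R z f) i j := by ring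
      rw [e1, e2, add_comm ((inf (res R z f) j - vv (res R z f) i j) ^ (1 + α))]; exact h

lemma av_sg_mul (i : I) (g : (I → Bool) → ℝ) : av (fun x => sg (x i) * g x) = av (D i g) := by
  rw [av_eq_half i]
  refine av_congr fun x => ?_
  rw [flip_self_apply, sg_not]
  unfold D Lib_helper30.AA.flip
  cases hx : x i
  · have : Function.update x i false = x := by rw [← hx]; exact Function.update_eq_self i x
    rw [this]; simp [sg]; ring
  · have : Function.update x i true = x := by rw [← hx]; exact Function.update_eq_self i x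
    rw [this]; simp [sg]; ring

lemma av_res_insert {R : Finset I} {i : I} (hi : i ∉ R) (z : I → Bool) (f : (I → Bool) → ℝ) :
    av (res (insert i R) z f) = av (res R z f) + sg (z i) * av (D i (res R z f)) := by
  rw [← av_sg_mul, ← av_update i (z i) (res R z f)]
  exact av_congr fun x => res_insert hi z f x

theorem step_mean (f : (I → Bool) → ℝ) {R : Finset I} {i : I} (hi : i ∉ R) :
    av (fun z => av (res (insert i R) z f) ^ 2) =
      av (fun z => av (res R z f) ^ 2) + av (fun z => av (D i (res R z f)) ^ 2) := by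
  rw [av_eq_half i (fun z => av (res (insert i R) z f) ^ 2), ← av_add]
  refine av_congr fun z => ?_
  rw [av_res_insert hi, av_res_insert hi, res_flip hi, flip_self_apply, sg_not]
  have := sg_sq (z i)
  linear_combination (av (D i (res R z f)) ^ 2) * this

lemma chi_eq (S : Finset I) (x : I → Bool) : chi S x = ∏ i ∈ S, sg (x i) := rfl

lemma av_chi_mix (S R : Finset I) (z : I → Bool) :
    av (fun x => chi S (fun i => if i ∈ R then z i else x i)) = if S ⊆ R then chi S z else 0 := by
  split_ifs with h
  · have : (fun x : I → Bool => chi S (fun i => if i ∈ R then z i else x i)) =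
        fun _ => chi S z := by
      funext x
      unfold chi
      exact Finset.prod_congr rfl fun i hi => by simp only [if_pos (h hi)]
    rw [this]
    simp [av]
  · rw [Finset.not_subset] at h
    obtain ⟨i, hiS, hiR⟩ := h
    refine av_eq_zero_of_flip i fun x => ?_
    have : (fun k => if k ∈ R then z k else flip i x k) =
        flip i (fun k => if k ∈ R then z k else x k) := by
      funext k
      by_cases hk : k = i
      · subst hk; simp [hiR, Lib_helper30.AA.flip]
      · rw [flip_apply_of_ne hk, flip_apply_of_ne hk]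
    rw [this, chi_flip_of_mem hiS]

lemma av_sum {A : Type} (s : Finset A) (g : A → (I → Bool) → ℝ) :
    av (fun x => ∑ a ∈ s, g a x) = ∑ a ∈ s, av (g a) := by
  unfold av
  rw [Finset.sum_comm, Finset.mul_sum]

lemma av_res (R : Finset I) (z : I → Bool) (f : (I → Bool) → ℝ) :
    av (res R z f) = ∑ S : Finset I, (if S ⊆ R then coef f S else 0) * chi S z := by
  have h1 : av (res R z f) = av (fun x => ∑ S : Finset I, coef f S *
      chi S (fun i => if i ∈ R then z i else x i)) :=
    av_congr fun x => inversion f _
  rw [h1, av_sum]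
  refine Finset.sum_congr rfl fun S _ => ?_
  rw [av_const_mul, av_chi_mix]
  split_ifs <;> simp

lemma av_chi_mul_chi (S T : Finset I) :
    av (fun x => chi S x * chi T x) = if S = T then 1 else 0 := by
  split_ifs with h
  · subst h
    simp [chi_mul_self, av]
  · have : ∃ i, ¬ (i ∈ S ↔ i ∈ T) := by
      by_contra hcon
      push Not at hcon
      exact h (Finset.ext hcon)
    obtain ⟨i, hi⟩ := this
    refine av_eq_zero_of_flip i fun x => ?_
    by_cases hS : i ∈ S
    · have hT : i ∉ T := fun hT => hi ⟨fun _ => hT, fun _ => hS⟩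
      rw [chi_flip_of_mem hS, chi_flip_of_notMem hT]; ring
    · have hT : i ∈ T := by
        by_contra hT
        exact hi ⟨fun h => absurd h hS, fun h => absurd h hT⟩
      rw [chi_flip_of_notMem hS, chi_flip_of_mem hT]; ring

lemma av_sq_sum_chi (a : Finset I → ℝ) :
    av (fun x => (∑ S : Finset I, a S * chi S x) ^ 2) = ∑ S : Finset I, a S ^ 2 := by
  have h1 : ∀ x, (∑ S : Finset I, a S * chi S x) ^ 2 =
      ∑ S : Finset I, ∑ T : Finset I, (a S * a T) * (chi S x * chi T x) := by
    intro x
    rw [sq, Finset.sum_mul_sum]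
    exact Finset.sum_congr rfl fun S _ => Finset.sum_congr rfl fun T _ => by ring
  rw [av_congr h1, av_sum]
  refine Finset.sum_congr rfl fun S _ => ?_
  rw [av_sum]
  simp_rw [av_const_mul, av_chi_mul_chi]
  simp [sq]

lemma sum_superset (ρ : ℝ) (S : Finset I) :
    ∑ R : Finset I, ρ ^ R.card * (1 - ρ) ^ (Rᶜ).card * (if S ⊆ R then 1 else 0) =
      ρ ^ S.card := by
  have h := Finset.prod_add (fun _ : I => ρ) (fun i => if i ∈ S then (0 : ℝ) else 1 - ρ)
    (Finset.univ : Finset I)
  rw [Finset.powerset_univ] at h
  have h1 : ∏ i : I, (ρ + if i ∈ S then (0 : ℝ) else 1 - ρ) = ρ ^ S.card := by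
    have : ∀ i : I, (ρ + if i ∈ S then (0 : ℝ) else 1 - ρ) = if i ∈ S then ρ else 1 := by
      intro i; split_ifs <;> ring
    simp_rw [this]
    rw [Finset.prod_ite]
    simp
  rw [h1] at h
  rw [h]
  refine Finset.sum_congr rfl fun R _ => ?_
  rw [Finset.prod_const, mul_assoc]
  congr 1
  rw [← Finset.compl_eq_univ_sdiff]
  split_ifs with hS
  · rw [mul_one, ← Finset.prod_const]
    refine Finset.prod_congr rfl fun i hi => ?_
    rw [if_neg]
    intro hiS
    exact (Finset.mem_compl.1 hi) (hS hiS)
  · rw [mul_zero]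
    rw [Finset.not_subset] at hS
    obtain ⟨i, hiS, hiR⟩ := hS
    exact (Finset.prod_eq_zero (Finset.mem_compl.2 hiR) (by simp [hiS])).symm

/-- The statement `rs_mean_sq` of the skeleton, with `rs` unfolded (definitionally equal). -/
theorem rs_mean_sq (f : (I → Bool) → ℝ) (ρ : ℝ) :
    ∑ R : Finset I, ρ ^ R.card * (1 - ρ) ^ (Rᶜ).card * av (fun z => av (res R z f) ^ 2) =
      ∑ S : Finset I, ρ ^ S.card * coef f S ^ 2 := by
  have h1 : ∀ R : Finset I, av (fun z => av (res R z f) ^ 2) =
      ∑ S : Finset I, (if S ⊆ R then 1 else 0) * coef f S ^ 2 := by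
    intro R
    simp_rw [av_res]
    rw [av_sq_sum_chi]
    refine Finset.sum_congr rfl fun S _ => ?_
    split_ifs <;> simp
  simp_rw [h1, Finset.mul_sum]
  rw [Finset.sum_comm]
  refine Finset.sum_congr rfl fun S _ => ?_
  rw [← sum_superset ρ S, Finset.sum_mul]
  exact Finset.sum_congr rfl fun R _ => by ring

end Pool.Agent.Lib_helper83.QP
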