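import Mathlib

set_option autoImplicit false
set_option linter.unusedSectionVars false

open MeasureTheory Measure ProbabilityTheory Filter Topology
open scoped BigOperators ENNReal

namespace Pool.Agent.Lib_helper83

variable {X : Type*} [MeasurableSpace X] (lam : Measure X) [IsProbabilityMeasure lam]

/-- Chebyshev: the weak law of large numbers for a bounded function. -/
theorem weak_law (f : X → ℝ) (hf : Measurable f) (h01 : ∀ x, 0 ≤ f x ∧ f x ≤ 1) (ε : ℝ)
    (hε : 0 < ε) :
    Tendsto (fun n : ℕ => Measure.pi (fun _ : Fin n => lam)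
      {x : Fin n → X | ε < |(1 / (n : ℝ)) * ∑ i : Fin n, f (x i) - ∫ y, f y ∂lam|})
      atTop (𝓝 0) := by
  have hmem : MemLp f 2 lam := by
    refine MemLp.of_bound hf.aestronglyMeasurable 1 (ae_of_all _ fun x => ?_)
    rw [Real.norm_of_nonneg (h01 x).1]; exact (h01 x).2
  have hvar : Var[f; lam] ≤ 1 := by
    have := variance_le_sq_of_bounded (μ := lam) (a := 0) (b := 1) (X := f)
      (ae_of_all _ fun x => ⟨(h01 x).1, (h01 x).2⟩) hf.aemeasurable
    refine this.trans ?_
    norm_num
  have hbound : ∀ n : ℕ, 1 ≤ n → Measure.pi (fun _ : Fin n => lam)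
      {x : Fin n → X | ε < |(1 / (n : ℝ)) * ∑ i : Fin n, f (x i) - ∫ y, f y ∂lam|}
      ≤ ENNReal.ofReal ((1 / ε ^ 2) * (1 / (n : ℝ))) := by
    intro n hn
    have hnR : (0 : ℝ) < n := by exact_mod_cast hn
    set Pn := Measure.pi (fun _ : Fin n => lam) with hPn
    let S : (Fin n → X) → ℝ := ∑ i : Fin n, fun x => f (x i)
    have hS : ∀ x, S x = ∑ i : Fin n, f (x i) := by
      intro x; simp [S]
    have hSmem : MemLp S 2 Pn := by
      refine memLp_finsetSum' _ fun i _ => ?_
      exact hmem.comp_measurePreserving (measurePreserving_eval (fun _ : Fin n => lam) i)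
    have hvarS : Var[S; Pn] ≤ n := by
      have h1 : Var[S; Pn] = ∑ _i : Fin n, Var[f; lam] :=
        variance_sum_pi (μ := fun _ : Fin n => lam) (X := fun _ => f) (fun _ => hmem)
      rw [h1, Finset.sum_const, Finset.card_univ, Fintype.card_fin, nsmul_eq_mul]
      nlinarith
    have hmean : ∫ x, S x ∂Pn = n * ∫ y, f y ∂lam := by
      simp_rw [hS]
      rw [integral_finsetSum]
      · have : ∀ i : Fin n, ∫ x : Fin n → X, f (x i) ∂Pn = ∫ y, f y ∂lam := by
          intro i
          exact integral_comp_eval (μ := fun _ : Fin n => lam) (i := i)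
            hf.aestronglyMeasurable
        simp_rw [this]
        simp
      · intro i _
        have h2 : MemLp (fun x : Fin n → X => f (x i)) 2 Pn :=
          hmem.comp_measurePreserving (measurePreserving_eval (fun _ : Fin n => lam) i)
        exact h2.integrable (by norm_num)
    have hch := meas_ge_le_variance_div_sq hSmem (c := n * ε) (by positivity)
    refine (measure_mono ?_).trans (hch.trans ?_)
    · intro x hx
      simp only [Set.mem_ofPred_eq] at hx ⊢
      rw [hmean, hS]
      have e : (1 / (n : ℝ)) * ∑ i : Fin n, f (x i) - ∫ y, f y ∂lam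
          = (1 / (n : ℝ)) * (∑ i : Fin n, f (x i) - n * ∫ y, f y ∂lam) := by
        field_simp
      rw [e, abs_mul, abs_of_pos (by positivity), one_div, ← div_eq_inv_mul,
        lt_div_iff₀ hnR] at hx
      linarith
    · refine ENNReal.ofReal_le_ofReal ?_
      rw [div_le_iff₀ (by positivity)]
      have : 1 / ε ^ 2 * (1 / (n : ℝ)) * ((n : ℝ) * ε) ^ 2 = n := by
        field_simp
      rw [this]
      exact hvarS
  have hlim : Tendsto (fun n : ℕ => ENNReal.ofReal ((1 / ε ^ 2) * (1 / (n : ℝ)))) atTop (𝓝 0) := by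
    have h1 : Tendsto (fun n : ℕ => (1 / ε ^ 2) * (1 / (n : ℝ))) atTop (𝓝 0) := by
      have h2 := (tendsto_one_div_atTop_nhds_zero_nat (𝕜 := ℝ)).const_mul (1 / ε ^ 2)
      rw [mul_zero] at h2
      exact h2
    simpa using ENNReal.tendsto_ofReal h1
  refine tendsto_of_tendsto_of_tendsto_of_le_of_le' tendsto_const_nhds hlim
    (Eventually.of_forall fun _ => zero_le) ?_
  filter_upwards [eventually_ge_atTop 1] with n hn using hbound n hn

/-- Union bound: the probability that at least `K` of `n` i.i.d. points fall in `D`. -/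
theorem many_points_bound (D : Set X) (q : ℝ≥0∞) (hq : lam D ≤ q)
    (hq1 : q ≤ 1) (n K : ℕ) [DecidablePred (· ∈ D)] :
    Measure.pi (fun _ : Fin n => lam)
      {x : Fin n → X | K ≤ (Finset.univ.filter fun i => x i ∈ D).card} ≤ 2 ^ n * q ^ K := by
  classical
  let 𝒥 : Finset (Finset (Fin n)) := Finset.univ.filter fun I => K ≤ I.card
  have hsub : {x : Fin n → X | K ≤ (Finset.univ.filter fun i => x i ∈ D).card}
      ⊆ ⋃ I ∈ 𝒥, Set.univ.pi fun i => if i ∈ I then D else Set.univ := by
    intro x hx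
    simp only [Set.mem_iUnion]
    refine ⟨Finset.univ.filter fun i => x i ∈ D, ?_, ?_⟩
    · simp only [𝒥, Finset.mem_filter, Finset.mem_univ, true_and]; exact hx
    · intro i _
      by_cases hi : x i ∈ D <;> simp [hi]
  calc Measure.pi (fun _ : Fin n => lam)
        {x : Fin n → X | K ≤ (Finset.univ.filter fun i => x i ∈ D).card}
      ≤ Measure.pi (fun _ : Fin n => lam)
          (⋃ I ∈ 𝒥, Set.univ.pi fun i => if i ∈ I then D else Set.univ) := measure_mono hsub
    _ ≤ ∑ I ∈ 𝒥, Measure.pi (fun _ : Fin n => lam)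
          (Set.univ.pi fun i => if i ∈ I then D else Set.univ) := measure_biUnion_finset_le _ _
    _ ≤ ∑ I ∈ 𝒥, q ^ K := by
        refine Finset.sum_le_sum fun I hI => ?_
        rw [Measure.pi_pi]
        have h1 : ∀ i : Fin n, lam (if i ∈ I then D else Set.univ)
            = if i ∈ I then lam D else 1 := by
          intro i; split_ifs <;> simp
        simp_rw [h1]
        rw [Finset.prod_ite_mem, Finset.univ_inter, Finset.prod_const]
        have hK : K ≤ I.card := (Finset.mem_filter.mp hI).2
        calc lam D ^ I.card ≤ q ^ I.card := by gcongr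
          _ ≤ q ^ K := pow_le_pow_of_le_one zero_le hq1 hK
    _ = (𝒥.card : ℝ≥0∞) * q ^ K := by rw [Finset.sum_const, nsmul_eq_mul]
    _ ≤ 2 ^ n * q ^ K := by
        gcongr
        have : 𝒥.card ≤ 2 ^ n := by
          calc 𝒥.card ≤ (Finset.univ : Finset (Finset (Fin n))).card := Finset.card_filter_le _ _
            _ = 2 ^ n := by simp
        exact_mod_cast this

/-- Deviation bound for the indicator of a set of small measure. -/
theorem indicator_dev_bound (D : Set X) (hD : MeasurableSet D) (q : ℝ≥0∞) (hq : lam D ≤ q)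
    (hq1 : q ≤ 1) (n : ℕ) (hn : 1 ≤ n) [DecidablePred (· ∈ D)] (ε : ℝ)
    (hDε : lam.real D ≤ ε) :
    Measure.pi (fun _ : Fin n => lam)
      {x : Fin n → X | ε < |(1 / (n : ℝ)) * ∑ i : Fin n, (if x i ∈ D then (1 : ℝ) else 0)
        - ∫ y, (if y ∈ D then (1 : ℝ) else 0) ∂lam|} ≤ 2 ^ n * q ^ ⌈ε * n⌉₊ := by
  have hnR : (0 : ℝ) < n := by exact_mod_cast hn
  refine (measure_mono ?_).trans (many_points_bound lam D q hq hq1 n ⌈ε * n⌉₊)
  intro x hx
  simp only [Set.mem_ofPred_eq] at hx ⊢
  have hint : ∫ y, (if y ∈ D then (1 : ℝ) else 0) ∂lam = lam.real D := by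
    have h1 : (fun y => if y ∈ D then (1 : ℝ) else 0) = D.indicator (fun _ => (1 : ℝ)) := by
      funext y; simp [Set.indicator]
    rw [h1, integral_indicator_const _ hD]; simp
  rw [hint, Finset.sum_boole] at hx
  set N := (Finset.univ.filter fun i => x i ∈ D).card with hN
  have hd0 : 0 ≤ lam.real D := measureReal_nonneg
  have hN0 : 0 ≤ (1 / (n : ℝ)) * (N : ℝ) := by positivity
  have h2 : ε < (1 / (n : ℝ)) * (N : ℝ) := by
    rcases lt_abs.mp hx with h | h
    · linarith
    · linarith
  rw [one_div, ← div_eq_inv_mul, lt_div_iff₀ hnR] at h2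
  exact Nat.ceil_le.mpr h2.le

end Pool.Agent.Lib_helper83
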