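import Mathlib

set_option autoImplicit false

open scoped BigOperators ComplexConjugate
open Finset

namespace Pool.Agent.Lib_helper83

variable {G : Type*} [AddCommGroup G] [Fintype G]

/-- Parseval on a finite abelian group. -/
theorem parseval (f : G → ℂ) :
    ∑ ψ : AddChar G ℂ, ‖∑ y, f y * ψ y‖ ^ 2 = (Fintype.card G : ℝ) * ∑ y, ‖f y‖ ^ 2 := by
  classical
  have key : ∑ ψ : AddChar G ℂ, (∑ y, f y * ψ y) * conj (∑ y, f y * ψ y)
      = (Fintype.card G : ℂ) * ∑ y, f y * conj (f y) := by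
    have h1 : ∀ ψ : AddChar G ℂ, (∑ y, f y * ψ y) * conj (∑ y, f y * ψ y)
        = ∑ y, ∑ y', f y * conj (f y') * ψ (y - y') := by
      intro ψ
      rw [map_sum, Finset.sum_mul_sum]
      refine Finset.sum_congr rfl fun y _ => Finset.sum_congr rfl fun y' _ => ?_
      rw [map_mul, ← AddChar.map_neg_eq_conj, sub_eq_add_neg, AddChar.map_add_eq_mul]
      ring
    calc ∑ ψ : AddChar G ℂ, (∑ y, f y * ψ y) * conj (∑ y, f y * ψ y)
        = ∑ ψ : AddChar G ℂ, ∑ y, ∑ y', f y * conj (f y') * ψ (y - y') :=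
          Finset.sum_congr rfl fun ψ _ => h1 ψ
      _ = ∑ y, ∑ y', f y * conj (f y') * ∑ ψ : AddChar G ℂ, ψ (y - y') := by
          rw [Finset.sum_comm]
          refine Finset.sum_congr rfl fun y _ => ?_
          rw [Finset.sum_comm]
          refine Finset.sum_congr rfl fun y' _ => ?_
          rw [Finset.mul_sum]
      _ = ∑ y, f y * conj (f y) * (Fintype.card G : ℂ) := by
          refine Finset.sum_congr rfl fun y _ => ?_
          rw [Finset.sum_eq_single y]
          · rw [AddChar.sum_apply_eq_ite, if_pos (sub_self y)]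
          · intro y' _ hne
            rw [AddChar.sum_apply_eq_ite, if_neg (sub_ne_zero.mpr hne.symm), mul_zero]
          · intro h; exact absurd (Finset.mem_univ y) h
      _ = _ := by rw [Finset.mul_sum]; exact Finset.sum_congr rfl fun y _ => by ring
  have h2 : ∀ w : ℂ, ((‖w‖ ^ 2 : ℝ) : ℂ) = w * conj w := by
    intro w
    rw [Complex.mul_conj, Complex.normSq_eq_norm_sq]
  have h3 : ((∑ ψ : AddChar G ℂ, ‖∑ y, f y * ψ y‖ ^ 2 : ℝ) : ℂ)
      = (((Fintype.card G : ℝ) * ∑ y, ‖f y‖ ^ 2 : ℝ) : ℂ) := by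
    rw [Complex.ofReal_sum, Complex.ofReal_mul, Complex.ofReal_sum]
    simp_rw [h2]
    simpa using key
  exact_mod_cast h3

/-- The mixing inequality on a finite abelian group: if every nontrivial Fourier coefficient of
the probability vector `ν` has modulus at most `c`, then for all sets `A`, `B`,
`P (Y ∈ A, Y + Z ∈ B)` is within `c` of `P (Y ∈ A) P (Y ∈ B)`, for `Y` uniform and `Z ∼ ν`
independent. -/
theorem fourier_mix [DecidableEq G] (ν : G → ℝ) (hν1 : ∑ z, ν z = 1) (c : ℝ)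
    (hc : 0 ≤ c) (h : ∀ ψ : AddChar G ℂ, ψ ≠ 0 → ‖∑ z, (ν z : ℂ) * ψ z‖ ≤ c)
    (A B : Finset G) :
    |(∑ z, ν z * ((#{y | y ∈ A ∧ y + z ∈ B} : ℝ) / Fintype.card G))
      - ((#A : ℝ) / Fintype.card G) * ((#B : ℝ) / Fintype.card G)| ≤ c := by
  classical
  set N : ℝ := (Fintype.card G : ℝ) with hN
  have hNpos : 0 < N := by
    rw [hN]; exact_mod_cast Fintype.card_pos
  let a : G → ℂ := fun y => if y ∈ A then 1 else 0
  let b : G → ℂ := fun y => if y ∈ B then 1 else 0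
  let F : AddChar G ℂ → ℂ := fun ψ => ∑ y, a y * ψ (-y)
  let H : AddChar G ℂ → ℂ := fun ψ => ∑ y, b y * ψ y
  let n : AddChar G ℂ → ℂ := fun ψ => ∑ z, (ν z : ℂ) * ψ (-z)
  -- the key identity
  have key : ∑ ψ : AddChar G ℂ, n ψ * (F ψ * H ψ)
      = (N : ℂ) * ∑ z, (ν z : ℂ) * ∑ y, a y * b (y + z) := by
    have h1 : ∀ ψ : AddChar G ℂ, n ψ * (F ψ * H ψ)
        = ∑ z, ∑ y, ∑ y', (ν z : ℂ) * a y * b y' * ψ (y' - (y + z)) := by
      intro ψ
      simp only [n, F, H]
      rw [Finset.sum_mul_sum, Finset.sum_mul]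
      refine Finset.sum_congr rfl fun z _ => ?_
      rw [Finset.mul_sum]
      refine Finset.sum_congr rfl fun y _ => ?_
      rw [Finset.mul_sum]
      refine Finset.sum_congr rfl fun y' _ => ?_
      have e : y' - (y + z) = y' + (-y) + (-z) := by abel
      rw [e, AddChar.map_add_eq_mul, AddChar.map_add_eq_mul]
      ring
    calc ∑ ψ : AddChar G ℂ, n ψ * (F ψ * H ψ)
        = ∑ ψ : AddChar G ℂ, ∑ z, ∑ y, ∑ y', (ν z : ℂ) * a y * b y' * ψ (y' - (y + z)) :=
          Finset.sum_congr rfl fun ψ _ => h1 ψ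
      _ = ∑ z, ∑ y, ∑ y', (ν z : ℂ) * a y * b y' * ∑ ψ : AddChar G ℂ, ψ (y' - (y + z)) := by
          rw [Finset.sum_comm]
          refine Finset.sum_congr rfl fun z _ => ?_
          rw [Finset.sum_comm]
          refine Finset.sum_congr rfl fun y _ => ?_
          rw [Finset.sum_comm]
          refine Finset.sum_congr rfl fun y' _ => ?_
          rw [Finset.mul_sum]
      _ = ∑ z, ∑ y, (ν z : ℂ) * a y * b (y + z) * (N : ℂ) := by
          refine Finset.sum_congr rfl fun z _ => Finset.sum_congr rfl fun y _ => ?_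
          rw [Finset.sum_eq_single (y + z)]
          · rw [AddChar.sum_apply_eq_ite, if_pos (sub_self _)]
            simp [hN]
          · intro y' _ hne
            rw [AddChar.sum_apply_eq_ite, if_neg (sub_ne_zero.mpr hne), mul_zero]
          · intro h; exact absurd (Finset.mem_univ _) h
      _ = _ := by
          rw [Finset.mul_sum]
          refine Finset.sum_congr rfl fun z _ => ?_
          rw [Finset.mul_sum, Finset.mul_sum]
          exact Finset.sum_congr rfl fun y _ => by ring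
  -- the counting interpretation
  have hcount : ∀ z, ∑ y, a y * b (y + z) = ((#{y | y ∈ A ∧ y + z ∈ B} : ℝ) : ℂ) := by
    intro z
    have : ∀ y, a y * b (y + z) = if (y ∈ A ∧ y + z ∈ B) then (1 : ℂ) else 0 := by
      intro y
      simp only [a, b]
      by_cases h1 : y ∈ A <;> by_cases h2 : y + z ∈ B <;> simp [h1, h2]
    simp_rw [this]
    rw [Finset.sum_boole]
    simp
  -- the trivial character
  have h0 : n 0 * (F 0 * H 0) = (((#A : ℝ) * (#B : ℝ) : ℝ) : ℂ) := by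
    have e1 : n 0 = 1 := by
      simp only [n, AddChar.zero_apply, mul_one]
      rw [← Complex.ofReal_sum, hν1]; simp
    have e2 : F 0 = ((#A : ℝ) : ℂ) := by
      simp only [F, a, AddChar.zero_apply, mul_one]
      rw [Finset.sum_boole]; simp
    have e3 : H 0 = ((#B : ℝ) : ℂ) := by
      simp only [H, b, AddChar.zero_apply, mul_one]
      rw [Finset.sum_boole]; simp
    rw [e1, e2, e3]; push_cast; ring
  -- bounds for the coefficients
  have hn : ∀ ψ : AddChar G ℂ, ψ ≠ 0 → ‖n ψ‖ ≤ c := by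
    intro ψ hψ
    have : n ψ = ∑ z, (ν z : ℂ) * (-ψ) z := by
      simp only [n, AddChar.neg_apply]
    rw [this]
    exact h (-ψ) (neg_ne_zero.mpr hψ)
  have hFn : ∀ ψ : AddChar G ℂ, ‖F ψ‖ = ‖∑ y, a y * ψ y‖ := by
    intro ψ
    have : F ψ = conj (∑ y, a y * ψ y) := by
      simp only [F]
      rw [map_sum]
      refine Finset.sum_congr rfl fun y _ => ?_
      rw [map_mul, AddChar.map_neg_eq_conj]
      congr 1
      simp only [a]
      split_ifs <;> simp
    rw [this, Complex.norm_conj]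
  have hPF : ∑ ψ : AddChar G ℂ, ‖F ψ‖ ^ 2 = N * #A := by
    simp_rw [hFn]
    rw [parseval]
    congr 1
    have : ∀ y, ‖a y‖ ^ 2 = if y ∈ A then (1 : ℝ) else 0 := by
      intro y; simp only [a]; split_ifs <;> simp
    simp_rw [this]
    rw [Finset.sum_boole]; simp
  have hPH : ∑ ψ : AddChar G ℂ, ‖H ψ‖ ^ 2 = N * #B := by
    simp only [H]
    rw [parseval]
    congr 1
    have : ∀ y, ‖b y‖ ^ 2 = if y ∈ B then (1 : ℝ) else 0 := by
      intro y; simp only [b]; split_ifs <;> simp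
    simp_rw [this]
    rw [Finset.sum_boole]; simp
  -- the sum over nontrivial characters
  have hrest : ‖∑ ψ ∈ Finset.univ.erase (0 : AddChar G ℂ), n ψ * (F ψ * H ψ)‖
      ≤ c * N ^ 2 := by
    calc ‖∑ ψ ∈ Finset.univ.erase (0 : AddChar G ℂ), n ψ * (F ψ * H ψ)‖
        ≤ ∑ ψ ∈ Finset.univ.erase (0 : AddChar G ℂ), ‖n ψ * (F ψ * H ψ)‖ := norm_sum_le _ _
      _ ≤ ∑ ψ ∈ Finset.univ.erase (0 : AddChar G ℂ), c * ((‖F ψ‖ ^ 2 + ‖H ψ‖ ^ 2) / 2) := by
          refine Finset.sum_le_sum fun ψ hψ => ?_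
          rw [norm_mul, norm_mul]
          have h1 := hn ψ (Finset.ne_of_mem_erase hψ)
          have h2 : ‖F ψ‖ * ‖H ψ‖ ≤ (‖F ψ‖ ^ 2 + ‖H ψ‖ ^ 2) / 2 := by
            nlinarith [sq_nonneg (‖F ψ‖ - ‖H ψ‖)]
          exact mul_le_mul h1 h2 (by positivity) hc
      _ ≤ ∑ ψ : AddChar G ℂ, c * ((‖F ψ‖ ^ 2 + ‖H ψ‖ ^ 2) / 2) := by
          refine Finset.sum_le_sum_of_subset_of_nonneg (Finset.subset_univ _) ?_
          intro ψ _ _
          positivity
      _ = c * ((N * #A + N * #B) / 2) := by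
          rw [← Finset.mul_sum, ← Finset.sum_div, Finset.sum_add_distrib, hPF, hPH]
      _ ≤ c * N ^ 2 := by
          have hA : (#A : ℝ) ≤ N := by
            rw [hN]; exact_mod_cast Finset.card_le_univ A
          have hB : (#B : ℝ) ≤ N := by
            rw [hN]; exact_mod_cast Finset.card_le_univ B
          refine mul_le_mul_of_nonneg_left ?_ hc
          nlinarith
  -- put together
  have hsplit : ∑ ψ : AddChar G ℂ, n ψ * (F ψ * H ψ)
      = n 0 * (F 0 * H 0) + ∑ ψ ∈ Finset.univ.erase (0 : AddChar G ℂ), n ψ * (F ψ * H ψ) := by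
    rw [Finset.add_sum_erase _ (fun ψ => n ψ * (F ψ * H ψ)) (Finset.mem_univ _)]
  have hfin : (((∑ z, ν z * ((#{y | y ∈ A ∧ y + z ∈ B} : ℝ) / N))
      - ((#A : ℝ) / N) * ((#B : ℝ) / N) : ℝ) : ℂ)
      = (∑ ψ ∈ Finset.univ.erase (0 : AddChar G ℂ), n ψ * (F ψ * H ψ)) / (N : ℂ) ^ 2 := by
    have hNne : (N : ℂ) ≠ 0 := by exact_mod_cast hNpos.ne'
    have e1 : (∑ ψ ∈ Finset.univ.erase (0 : AddChar G ℂ), n ψ * (F ψ * H ψ))
        = (N : ℂ) * ∑ z, (ν z : ℂ) * ((#{y | y ∈ A ∧ y + z ∈ B} : ℝ) : ℂ)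
          - (((#A : ℝ) * (#B : ℝ) : ℝ) : ℂ) := by
      rw [← h0, eq_sub_iff_add_eq, add_comm, ← hsplit, key]
      simp_rw [hcount]
    rw [e1]
    rw [eq_div_iff (pow_ne_zero 2 hNne)]
    push_cast
    rw [sub_mul, Finset.sum_mul, Finset.mul_sum]
    congr 1
    · refine Finset.sum_congr rfl fun z _ => ?_
      field_simp
    · field_simp
  have hnorm : |(∑ z, ν z * ((#{y | y ∈ A ∧ y + z ∈ B} : ℝ) / N))
      - ((#A : ℝ) / N) * ((#B : ℝ) / N)|
      = ‖(((∑ z, ν z * ((#{y | y ∈ A ∧ y + z ∈ B} : ℝ) / N))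
      - ((#A : ℝ) / N) * ((#B : ℝ) / N) : ℝ) : ℂ)‖ := by
    rw [Complex.norm_real, Real.norm_eq_abs]
  have hN2 : ‖(N : ℂ) ^ 2‖ = N ^ 2 := by
    rw [norm_pow, Complex.norm_real, Real.norm_eq_abs, abs_of_pos hNpos]
  rw [hnorm, hfin, norm_div, hN2, div_le_iff₀ (by positivity)]
  exact hrest

end Pool.Agent.Lib_helper83
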