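import Mathlib
import Pool.Agent.Lib_helper83.FourierMix

set_option autoImplicit false

open MeasureTheory Measure
open scoped BigOperators ENNReal symmDiff

namespace Pool.Agent.Lib_helper83

/-- `Mix lam ν c`: for `Y ∼ lam` and `Z ∼ ν` independent, `P (Y ∈ A, Y + Z ∈ B)` is within `c` of
`P (Y ∈ A) P (Y ∈ B)` for all measurable `A`, `B`. -/
def Mix {X : Type*} [MeasurableSpace X] [Add X] (lam ν : Measure X) (c : ℝ) : Prop :=
  ∀ A B : Set X, MeasurableSet A → MeasurableSet B →
    |(ν.prod lam).real {p | p.2 ∈ A ∧ p.2 + p.1 ∈ B} - lam.real A * lam.real B| ≤ c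

section finite

variable {G : Type*} [AddCommGroup G] [Fintype G] [MeasurableSpace G] [MeasurableSingletonClass G]

theorem mix_of_fourier (lam ν : Measure G) [IsProbabilityMeasure lam] [IsProbabilityMeasure ν]
    (hu : ∀ y, lam.real {y} = 1 / Fintype.card G) (c : ℝ) (hc : 0 ≤ c)
    (h : ∀ ψ : AddChar G ℂ, ψ ≠ 0 → ‖∫ z, ψ z ∂ν‖ ≤ c) : Mix lam ν c := by
  classical
  intro A B _ _
  have hlam : ∀ S : Finset G, lam.real (S : Set G) = (S.card : ℝ) / Fintype.card G := by
    intro S
    rw [← sum_measureReal_singleton]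
    simp_rw [hu]
    rw [Finset.sum_const, nsmul_eq_mul]
    ring
  have hν1 : ∑ z, ν.real {z} = 1 := by
    rw [sum_measureReal_singleton]
    simp
  have hE : (ν.prod lam).real {p | p.2 ∈ A ∧ p.2 + p.1 ∈ B}
      = ∑ z, ν.real {z} * (((Finset.univ.filter
          fun y => y ∈ A.toFinset ∧ y + z ∈ B.toFinset).card : ℝ) / Fintype.card G) := by
    have h1 : {p : G × G | p.2 ∈ A ∧ p.2 + p.1 ∈ B}
        = ((Finset.univ.filter fun p : G × G => p.2 ∈ A ∧ p.2 + p.1 ∈ B : Finset (G × G)) :
          Set (G × G)) := by
      ext p; simp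
    rw [h1, ← sum_measureReal_singleton, Finset.sum_filter, Fintype.sum_prod_type]
    refine Finset.sum_congr rfl fun z _ => ?_
    have h2 : ∀ y : G, (ν.prod lam).real {(z, y)} = ν.real {z} * (1 / Fintype.card G) := by
      intro y
      rw [← hu y, ← measureReal_prod_prod, Set.singleton_prod_singleton]
    simp_rw [h2]
    rw [← Finset.sum_filter, Finset.sum_const, nsmul_eq_mul]
    have h3 : (Finset.univ.filter fun y : G => (z, y).2 ∈ A ∧ (z, y).2 + (z, y).1 ∈ B)
        = (Finset.univ.filter fun y => y ∈ A.toFinset ∧ y + z ∈ B.toFinset) := by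
      ext y; simp
    rw [h3]
    ring
  have hA : lam.real A = (A.toFinset.card : ℝ) / Fintype.card G := by
    rw [← hlam]; simp
  have hB : lam.real B = (B.toFinset.card : ℝ) / Fintype.card G := by
    rw [← hlam]; simp
  rw [hE, hA, hB]
  refine fourier_mix (fun z => ν.real {z}) hν1 c hc ?_ A.toFinset B.toFinset
  intro ψ hψ
  have := h ψ hψ
  rw [integral_fintype (μ := ν) (f := fun z => ψ z) .of_finite] at this
  simpa using this

end finite

section product

/-- Approximation: the mixing inequality is stable under approximation of the two sets. -/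
theorem mix_of_dense {X : Type*} [MeasurableSpace X] [AddCommGroup X] [MeasurableAdd₂ X]
    (lam ν : Measure X) [IsProbabilityMeasure lam] [IsProbabilityMeasure ν]
    (hinv : ∀ g : X, lam.map (fun x => x + g) = lam) (c : ℝ) (𝒜 : Set (Set X))
    (hd : lam.MeasureDense 𝒜)
    (h : ∀ A ∈ 𝒜, ∀ B ∈ 𝒜,
      |(ν.prod lam).real {p | p.2 ∈ A ∧ p.2 + p.1 ∈ B} - lam.real A * lam.real B| ≤ c) :
    Mix lam ν c := by
  intro A B hA hB
  -- the law of `y + z`
  have hsum : ∀ D : Set X, MeasurableSet D →
      (ν.prod lam).real {p | p.2 + p.1 ∈ D} = lam.real D := by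
    intro D hD
    have hm : MeasurableSet {p : X × X | p.2 + p.1 ∈ D} :=
      (measurable_snd.add measurable_fst) hD
    rw [Measure.real, Measure.real, Measure.prod_apply hm]
    congr 1
    have : ∀ z : X, lam (Prod.mk z ⁻¹' {p : X × X | p.2 + p.1 ∈ D}) = lam D := by
      intro z
      conv_rhs => rw [← hinv z]
      rw [Measure.map_apply (f := fun x => x + z) (measurable_id.add_const z) hD]
      rfl
    simp_rw [this]
    simp
  have hsnd : ∀ D : Set X, MeasurableSet D →
      (ν.prod lam).real {p | p.2 ∈ D} = lam.real D := by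
    intro D hD
    have : {p : X × X | p.2 ∈ D} = Set.univ ×ˢ D := by ext p; simp
    rw [this, measureReal_prod_prod]; simp
  refine le_of_forall_pos_le_add fun η hη => ?_
  obtain ⟨A', hA'mem, hA'⟩ := hd.approx A hA (measure_ne_top _ _) (η / 4) (by positivity)
  obtain ⟨B', hB'mem, hB'⟩ := hd.approx B hB (measure_ne_top _ _) (η / 4) (by positivity)
  have hA'm := hd.measurable A' hA'mem
  have hB'm := hd.measurable B' hB'mem
  have hAr : lam.real (A ∆ A') ≤ η / 4 := by
    rw [Measure.real]
    exact ENNReal.toReal_le_of_le_ofReal (by positivity) hA'.le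
  have hBr : lam.real (B ∆ B') ≤ η / 4 := by
    rw [Measure.real]
    exact ENNReal.toReal_le_of_le_ofReal (by positivity) hB'.le
  have hABm : MeasurableSet (A ∆ A') := hA.symmDiff hA'm
  have hBBm : MeasurableSet (B ∆ B') := hB.symmDiff hB'm
  -- abbreviations
  set E := {p : X × X | p.2 ∈ A ∧ p.2 + p.1 ∈ B} with hE
  set E' := {p : X × X | p.2 ∈ A' ∧ p.2 + p.1 ∈ B'} with hE'
  have hEm : MeasurableSet E :=
    (measurable_snd hA).inter ((measurable_snd.add measurable_fst) hB)
  have hE'm : MeasurableSet E' :=
    (measurable_snd hA'm).inter ((measurable_snd.add measurable_fst) hB'm)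
  have hsub : E ∆ E' ⊆ {p | p.2 ∈ A ∆ A'} ∪ {p | p.2 + p.1 ∈ B ∆ B'} := by
    intro p hp
    simp only [hE, hE', Set.mem_symmDiff, Set.mem_ofPred_eq, Set.mem_union] at hp ⊢
    tauto
  have hbound : (ν.prod lam).real (E ∆ E') ≤ η / 2 := by
    calc (ν.prod lam).real (E ∆ E')
        ≤ (ν.prod lam).real ({p | p.2 ∈ A ∆ A'} ∪ {p | p.2 + p.1 ∈ B ∆ B'}) :=
          measureReal_mono hsub
      _ ≤ (ν.prod lam).real {p | p.2 ∈ A ∆ A'} + (ν.prod lam).real {p | p.2 + p.1 ∈ B ∆ B'} :=
          measureReal_union_le _ _
      _ ≤ η / 2 := by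
          rw [hsnd _ hABm, hsum _ hBBm]; linarith
  have hdiff : |(ν.prod lam).real E - (ν.prod lam).real E'| ≤ η / 2 :=
    (abs_measureReal_sub_le_measureReal_symmDiff hEm.nullMeasurableSet
      hE'm.nullMeasurableSet).trans hbound
  have hAd : |lam.real A - lam.real A'| ≤ η / 4 :=
    (abs_measureReal_sub_le_measureReal_symmDiff hA.nullMeasurableSet
      hA'm.nullMeasurableSet).trans hAr
  have hBd : |lam.real B - lam.real B'| ≤ η / 4 :=
    (abs_measureReal_sub_le_measureReal_symmDiff hB.nullMeasurableSet
      hB'm.nullMeasurableSet).trans hBr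
  have hprod : |lam.real A * lam.real B - lam.real A' * lam.real B'| ≤ η / 2 := by
    have e : lam.real A * lam.real B - lam.real A' * lam.real B'
        = (lam.real A - lam.real A') * lam.real B + lam.real A' * (lam.real B - lam.real B') := by
      ring
    rw [e]
    calc |(lam.real A - lam.real A') * lam.real B + lam.real A' * (lam.real B - lam.real B')|
        ≤ |(lam.real A - lam.real A') * lam.real B|
          + |lam.real A' * (lam.real B - lam.real B')| := abs_add_le _ _
      _ ≤ η / 4 * 1 + 1 * (η / 4) := by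
          rw [abs_mul, abs_mul]
          gcongr
          · rw [abs_of_nonneg measureReal_nonneg]; exact measureReal_le_one
          · rw [abs_of_nonneg measureReal_nonneg]; exact measureReal_le_one
      _ = η / 2 := by ring
  have hmain := h A' hA'mem B' hB'mem
  have e : (ν.prod lam).real E - lam.real A * lam.real B
      = ((ν.prod lam).real E - (ν.prod lam).real E')
        + ((ν.prod lam).real E' - lam.real A' * lam.real B')
        - (lam.real A * lam.real B - lam.real A' * lam.real B') := by ring
  rw [e]
  calc _ ≤ |((ν.prod lam).real E - (ν.prod lam).real E')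
        + ((ν.prod lam).real E' - lam.real A' * lam.real B')|
        + |(lam.real A * lam.real B - lam.real A' * lam.real B')| := abs_sub _ _
    _ ≤ |(ν.prod lam).real E - (ν.prod lam).real E'|
        + |(ν.prod lam).real E' - lam.real A' * lam.real B'|
        + |(lam.real A * lam.real B - lam.real A' * lam.real B')| := by
          gcongr; exact abs_add_le _ _
    _ ≤ η / 2 + c + η / 2 := by gcongr
    _ = c + η := by ring

variable {V : ℕ → Type*} [∀ i, AddCommGroup (V i)] [∀ i, Fintype (V i)]
  [∀ i, MeasurableSpace (V i)] [∀ i, MeasurableSingletonClass (V i)]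

/-- The mixing inequality on the infinite product of finite groups, from the Fourier
coefficients of the finite dimensional marginals. -/
theorem mix_infinitePi (lam : (i : ℕ) → Measure (V i)) [∀ i, IsProbabilityMeasure (lam i)]
    (hu : ∀ i y, (lam i).real {y} = 1 / Fintype.card (V i))
    [MeasurableAdd₂ (∀ i, V i)]
    (ν : Measure (∀ i, V i)) [IsProbabilityMeasure ν]
    (hinv : ∀ g : ∀ i, V i, (infinitePi lam).map (fun x => x + g) = infinitePi lam)
    (c : ℝ) (hc : 0 ≤ c)
    (h : ∀ (s : Finset ℕ) (ψ : AddChar (∀ i : s, V i) ℂ), ψ ≠ 0 →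
      ‖∫ z, ψ (s.restrict z) ∂ν‖ ≤ c) :
    Mix (infinitePi lam) ν c := by
  classical
  refine mix_of_dense (infinitePi lam) ν hinv c (measurableCylinders V)
    (MeasureDense.of_generateFrom_isSetAlgebra_finite _ isSetAlgebra_measurableCylinders
      (generateFrom_measurableCylinders).symm) ?_
  -- common index set
  have key : ∀ (s : Finset ℕ) (S T : Set (∀ i : s, V i)),
      |(ν.prod (infinitePi lam)).real {p | p.2 ∈ cylinder s S ∧ p.2 + p.1 ∈ cylinder s T}
        - (infinitePi lam).real (cylinder s S) * (infinitePi lam).real (cylinder s T)| ≤ c := by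
    intro s S T
    have hSm : MeasurableSet S := S.toFinite.measurableSet
    have hTm : MeasurableSet T := T.toFinite.measurableSet
    have hrm : Measurable (s.restrict (π := V)) := Finset.measurable_restrict s
    have hpr : IsProbabilityMeasure (ν.map (s.restrict (π := V))) :=
      isProbabilityMeasure_map hrm.aemeasurable
    have hmix : Mix (Measure.pi fun i : s => lam i) (ν.map (s.restrict (π := V))) c := by
      refine mix_of_fourier _ _ ?_ c hc ?_
      · intro y
        rw [Measure.real, Measure.pi_singleton, ENNReal.toReal_prod]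
        have : ∀ i : s, (lam i {y i}).toReal = 1 / Fintype.card (V i) := fun i => hu i (y i)
        simp_rw [this]
        rw [Fintype.card_pi]
        simp
      · intro ψ hψ
        rw [integral_map hrm.aemeasurable (by
          exact (measurable_of_finite _).aestronglyMeasurable)]
        exact h s ψ hψ
    have := hmix S T hSm hTm
    rw [← infinitePi_map_restrict lam, Measure.map_prod_map _ _ hrm hrm] at this
    have hm : MeasurableSet {p : (∀ i : s, V i) × (∀ i : s, V i) | p.2 ∈ S ∧ p.2 + p.1 ∈ T} :=
      (Set.toFinite _).measurableSet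
    rw [map_measureReal_apply (hrm.prodMap hrm) hm, map_measureReal_apply hrm hSm,
      map_measureReal_apply hrm hTm] at this
    exact this
  intro A hA B hB
  obtain ⟨s, S, hS, rfl⟩ := (mem_measurableCylinders A).mp hA
  obtain ⟨t, T, hT, rfl⟩ := (mem_measurableCylinders B).mp hB
  have e1 : cylinder s S = cylinder (s ∪ t)
      (Finset.restrict₂ (π := V) Finset.subset_union_left ⁻¹' S) := rfl
  have e2 : cylinder t T = cylinder (s ∪ t)
      (Finset.restrict₂ (π := V) Finset.subset_union_right ⁻¹' T) := rfl
  rw [e1, e2]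
  exact key (s ∪ t) _ _

end product

end Pool.Agent.Lib_helper83
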