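import Mathlib
import Pool.Agent.Lib_helper83.Mix

set_option autoImplicit false
set_option linter.unusedSectionVars false

open MeasureTheory Measure ProbabilityTheory
open scoped BigOperators ENNReal

namespace Pool.Agent.Lib_helper83

section indep

variable {X : Type*} [MeasurableSpace X] (μ : Measure X) [IsProbabilityMeasure μ]

/-- Functions of disjoint sets of coordinates of an i.i.d. sequence are independent. -/
theorem indepFun_of_disjoint {α β : Type*} [MeasurableSpace α] [MeasurableSpace β]
    {S T : Set ℕ} (hST : Disjoint S T) {f : (ℕ → X) → α} {g : (ℕ → X) → β}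
    (hf : Measurable[cylinderEvents S] f) (hg : Measurable[cylinderEvents T] g) :
    IndepFun f g (infinitePi fun _ : ℕ => μ) := by
  rw [IndepFun_iff_Indep]
  have h1 : iIndepFun (fun (i : ℕ) (ω : ℕ → X) => ω i) (infinitePi fun _ : ℕ => μ) :=
    iIndepFun_infinitePi (P := fun _ : ℕ => μ) (X := fun _ x => x) (fun _ => measurable_id)
  rw [iIndepFun_iff_iIndep] at h1
  have h2 := indep_iSup_of_disjoint (fun i => (measurable_pi_apply i).comap_le) h1 hST
  exact indep_of_indep_of_le h2 hf.comap_le hg.comap_le

end indep

variable {X : Type*} [MeasurableSpace X] [AddCommGroup X]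

/-- The walk with start `ω.1` and steps `ω.2 i`. -/
def walk (ω : X × (ℕ → X)) (j : ℕ) : X := ω.1 + ∑ i ∈ Finset.range j, ω.2 i

variable [MeasurableAdd₂ X] [MeasurableSub₂ X]

theorem measurable_walk : Measurable (walk : X × (ℕ → X) → ℕ → X) := by
  rw [measurable_pi_iff]
  intro j
  unfold walk
  refine measurable_fst.add ?_
  exact Finset.measurable_fun_sum _ fun i _ => (measurable_pi_apply i).comp measurable_snd

variable (lam μ : Measure X) [IsProbabilityMeasure lam] [IsProbabilityMeasure μ]

/-- The underlying probability: uniform start, i.i.d. steps. -/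
noncomputable def base : Measure (X × (ℕ → X)) := lam.prod (infinitePi fun _ : ℕ => μ)

instance : IsProbabilityMeasure (base lam μ) := by unfold base; infer_instance

/-- The law of the walk. -/
noncomputable def walkLaw : Measure (ℕ → X) := (base lam μ).map walk

instance : IsProbabilityMeasure (walkLaw lam μ) :=
  isProbabilityMeasure_map measurable_walk.aemeasurable

/-- The law of the sum of the steps with index in `[l, l + k)`. -/
noncomputable def stepSum (l k : ℕ) : Measure X :=
  (infinitePi fun _ : ℕ => μ).map fun w => ∑ i ∈ Finset.Ico l (l + k), w i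

theorem measurable_sum_coord (s : Finset ℕ) :
    Measurable (fun w : ℕ → X => ∑ i ∈ s, w i) :=
  Finset.measurable_fun_sum _ fun i _ => measurable_pi_apply i

instance (l k : ℕ) : IsProbabilityMeasure (stepSum μ l k) :=
  isProbabilityMeasure_map (measurable_sum_coord _).aemeasurable

/-- The rearranged randomness: `((past steps, future steps), (middle sum, position at l))`. -/
def rearr (l k : ℕ) (ω : X × (ℕ → X)) :
    ((↥(Finset.range l) → X) × (ℕ → X)) × (X × X) :=
  (((Finset.range l).restrict ω.2, fun j => ω.2 (l + k + j)),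
    (∑ i ∈ Finset.Ico l (l + k), ω.2 i, walk ω l))

theorem rearr_preserving (hinv : ∀ g : X, lam.map (fun x => x + g) = lam) (l k : ℕ) :
    MeasurePreserving (rearr (X := X) l k) (base lam μ)
      (((Measure.pi fun _ : ↥(Finset.range l) => μ).prod
        (infinitePi fun _ : ℕ => μ)).prod ((stepSum μ l k).prod lam)) := by
  set W := infinitePi fun _ : ℕ => μ with hW
  -- the three independent pieces
  have hu : Measurable (fun w : ℕ → X => (Finset.range l).restrict w) :=
    Finset.measurable_restrict _
  have hu' : Measurable[cylinderEvents {i | i < l}]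
      (fun w : ℕ → X => (Finset.range l).restrict w) := by
    rw [@measurable_pi_iff]
    intro i
    exact measurable_cylinderEvent_apply (Finset.mem_range.mp i.2)
  have ht : Measurable (fun (w : ℕ → X) (j : ℕ) => w (l + k + j)) := by fun_prop
  have ht' : Measurable[cylinderEvents {i | l + k ≤ i}]
      (fun (w : ℕ → X) (j : ℕ) => w (l + k + j)) := by
    rw [@measurable_pi_iff]
    intro j
    exact measurable_cylinderEvent_apply (show l + k ≤ l + k + j by omega)
  have hz : Measurable (fun w : ℕ → X => ∑ i ∈ Finset.Ico l (l + k), w i) :=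
    measurable_sum_coord _
  have hz' : Measurable[cylinderEvents {i | l ≤ i ∧ i < l + k}]
      (fun w : ℕ → X => ∑ i ∈ Finset.Ico l (l + k), w i) := by
    refine Finset.measurable_fun_sum _ fun i hi => ?_
    exact measurable_cylinderEvent_apply (Finset.mem_Ico.mp hi)
  -- law of (past, future)
  have hut : MeasurePreserving
      (fun w : ℕ → X => ((Finset.range l).restrict w, fun j => w (l + k + j))) W
      ((Measure.pi fun _ : ↥(Finset.range l) => μ).prod W) := by
    refine ⟨hu.prodMk ht, ?_⟩
    have hind : IndepFun (fun w : ℕ → X => (Finset.range l).restrict w)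
        (fun (w : ℕ → X) (j : ℕ) => w (l + k + j)) W := by
      refine indepFun_of_disjoint μ ?_ hu' ht'
      rw [Set.disjoint_left]
      intro i hi hi'
      simp only [Set.mem_ofPred_eq] at hi hi'
      omega
    rw [hind.map_prod_eq_prod_map_map hu.aemeasurable ht.aemeasurable]
    congr 1
    · exact infinitePi_map_restrict (fun _ : ℕ => μ)
    · exact map_infinitePi_infinitePi_of_inj (P := fun _ : ℕ => μ)
        (f := fun j : ℕ => l + k + j) (fun a b h => by simpa using h)
  -- law of ((past, future), middle)
  have hutz : MeasurePreserving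
      (fun w : ℕ → X => (((Finset.range l).restrict w, fun j => w (l + k + j)),
        ∑ i ∈ Finset.Ico l (l + k), w i)) W
      (((Measure.pi fun _ : ↥(Finset.range l) => μ).prod W).prod
        (stepSum μ l k)) := by
    refine ⟨(hu.prodMk ht).prodMk hz, ?_⟩
    have hut' : Measurable[cylinderEvents ({i | i < l} ∪ {i | l + k ≤ i})]
        (fun w : ℕ → X => ((Finset.range l).restrict w, fun j => w (l + k + j))) := by
      refine Measurable.prodMk ?_ ?_
      · exact hu'.mono (cylinderEvents_mono Set.subset_union_left) le_rfl
      · exact ht'.mono (cylinderEvents_mono Set.subset_union_right) le_rfl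
    have hind : IndepFun
        (fun w : ℕ → X => ((Finset.range l).restrict w, fun j => w (l + k + j)))
        (fun w : ℕ → X => ∑ i ∈ Finset.Ico l (l + k), w i) W := by
      refine indepFun_of_disjoint μ ?_ hut' hz'
      rw [Set.disjoint_left]
      intro i hi hi'
      simp only [Set.mem_union, Set.mem_ofPred_eq] at hi hi'
      omega
    rw [hind.map_prod_eq_prod_map_map (hu.prodMk ht).aemeasurable hz.aemeasurable, hut.map_eq]
    rfl
  -- add the position
  have hsk : MeasurePreserving
      (fun p : (ℕ → X) × X =>
        ((((Finset.range l).restrict p.1, fun j => p.1 (l + k + j)),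
          ∑ i ∈ Finset.Ico l (l + k), p.1 i), p.2 + ∑ i ∈ Finset.range l, p.1 i))
      (W.prod lam)
      ((((Measure.pi fun _ : ↥(Finset.range l) => μ).prod W).prod
        (stepSum μ l k)).prod lam) := by
    refine hutz.skew_product (g := fun w x => x + ∑ i ∈ Finset.range l, w i) ?_ ?_
    · exact measurable_snd.add ((measurable_sum_coord _).comp measurable_fst)
    · exact ae_of_all _ fun w => hinv _
  have h1 : MeasurePreserving (Prod.swap : X × (ℕ → X) → (ℕ → X) × X) (lam.prod W)
      (W.prod lam) := measurePreserving_swap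
  have h2 := measurePreserving_prodAssoc
    ((Measure.pi fun _ : ↥(Finset.range l) => μ).prod W) (stepSum μ l k) lam
  have h3 := h2.comp (hsk.comp h1)
  exact h3

/-- The shift-type relation: the walk seen from time `n`. -/
theorem walk_add (ω : X × (ℕ → X)) (n j : ℕ) :
    walk ω (n + j) = walk (walk ω n, fun i => ω.2 (n + i)) j := by
  unfold walk
  rw [Finset.sum_range_add, add_assoc]

/-- The walk started from the uniform measure is stationary. -/
theorem walkLaw_stationary (hinv : ∀ g : X, lam.map (fun x => x + g) = lam) :
    (walkLaw lam μ).map (fun (ω : ℕ → X) (n : ℕ) => ω (n + 1)) = walkLaw lam μ := by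
  have hr := rearr_preserving lam μ hinv 1 0
  -- pick out (position at time 1, later steps)
  have h1 : MeasurePreserving
      (fun ω : X × (ℕ → X) => (walk ω 1, fun j => ω.2 (1 + j))) (base lam μ) (base lam μ) := by
    have h2 : MeasurePreserving
        (Prod.map (Prod.snd : (↥(Finset.range 1) → X) × (ℕ → X) → (ℕ → X))
          (Prod.snd : X × X → X))
        (((Measure.pi fun _ : ↥(Finset.range 1) => μ).prod
        (infinitePi fun _ : ℕ => μ)).prod ((stepSum μ 1 0).prod lam))
        ((infinitePi fun _ : ℕ => μ).prod lam) :=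
      measurePreserving_snd.prod measurePreserving_snd
    have h3 : MeasurePreserving (Prod.swap : (ℕ → X) × X → X × (ℕ → X))
        ((infinitePi fun _ : ℕ => μ).prod lam) (base lam μ) := measurePreserving_swap
    have h4 := h3.comp (h2.comp hr)
    have e : (fun ω : X × (ℕ → X) => (walk ω 1, fun j => ω.2 (1 + j)))
        = Prod.swap ∘ Prod.map (Prod.snd : (↥(Finset.range 1) → X) × (ℕ → X) → (ℕ → X))
          (Prod.snd : X × X → X) ∘ rearr 1 0 := by
      funext ω
      rfl
    rw [e]
    exact h4
  unfold walkLaw
  rw [Measure.map_map (by fun_prop) measurable_walk]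
  have h5 : (fun (ω : ℕ → X) (n : ℕ) => ω (n + 1)) ∘ (walk : X × (ℕ → X) → ℕ → X)
      = walk ∘ (fun ω : X × (ℕ → X) => (walk ω 1, fun j => ω.2 (1 + j))) := by
    funext ω n
    simp only [Function.comp_apply]
    rw [← walk_add, add_comm]
  rw [h5, ← Measure.map_map measurable_walk h1.measurable, h1.map_eq]

/-- The one-dimensional marginal. -/
theorem walkLaw_marginal :
    (walkLaw lam μ).map (fun ω : ℕ → X => ω 0) = lam := by
  unfold walkLaw
  rw [Measure.map_map (by fun_prop) measurable_walk]
  have : (fun ω : ℕ → X => ω 0) ∘ (walk : X × (ℕ → X) → ℕ → X) = Prod.fst := by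
    funext ω
    simp [walk]
  rw [this]
  exact measurePreserving_fst.map_eq

/-- The strong mixing bound for the walk, from the one-point mixing inequality of the sums of
`k` steps. -/
theorem walkLaw_mixing (hinv : ∀ g : X, lam.map (fun x => x + g) = lam) (l k : ℕ) (c : ℝ)
    (hmix : Mix lam (stepSum μ l k) c) (A S : Set (ℕ → X))
    (hA : MeasurableSet[⨆ (i : ℕ) (_ : i ≤ l),
      MeasurableSpace.comap (fun ω : ℕ → X => ω i) inferInstance] A)
    (hS : MeasurableSet[⨆ (i : ℕ) (_ : l + k ≤ i),
      MeasurableSpace.comap (fun ω : ℕ → X => ω i) inferInstance] S) :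
    |(walkLaw lam μ).real (A ∩ S) - (walkLaw lam μ).real A * (walkLaw lam μ).real S| ≤ c := by
  set U := Measure.pi fun _ : ↥(Finset.range l) => μ with hU
  set W := infinitePi fun _ : ℕ => μ with hW
  set ν := stepSum μ l k with hν
  -- measurability in the ambient space
  have hAm : MeasurableSet A := by
    refine MeasurableSpace.le_def.mp ?_ A hA
    exact iSup_le fun i => iSup_le fun _ => (measurable_pi_apply i).comap_le
  have hSm : MeasurableSet S := by
    refine MeasurableSpace.le_def.mp ?_ S hS
    exact iSup_le fun i => iSup_le fun _ => (measurable_pi_apply i).comap_le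
  -- `A` only depends on the position at time `l` and the past steps
  obtain ⟨A'', hA''m, hA''⟩ : ∃ A'' : Set (X × (↥(Finset.range l) → X)),
      MeasurableSet A'' ∧ walk ⁻¹' A =
        (fun ω : X × (ℕ → X) => (walk ω l, (Finset.range l).restrict ω.2)) ⁻¹' A'' := by
    have hm : Measurable[MeasurableSpace.comap
        (fun ω : X × (ℕ → X) => (walk ω l, (Finset.range l).restrict ω.2)) inferInstance,
        ⨆ (i : ℕ) (_ : i ≤ l), MeasurableSpace.comap (fun ω : ℕ → X => ω i) inferInstance]
        (walk : X × (ℕ → X) → ℕ → X) := by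
      rw [measurable_iff_comap_le, MeasurableSpace.comap_iSup]
      refine iSup_le fun i => ?_
      rw [MeasurableSpace.comap_iSup]
      refine iSup_le fun hi => ?_
      rw [MeasurableSpace.comap_comp]
      -- express the walk at time `i` through the position at time `l`
      have hfac : (fun ω : ℕ → X => ω i) ∘ (walk : X × (ℕ → X) → ℕ → X)
          = (fun p : X × (↥(Finset.range l) → X) =>
              p.1 - ∑ j : ↥(Finset.range l), if i ≤ (j : ℕ) then p.2 j else 0) ∘
            (fun ω : X × (ℕ → X) => (walk ω l, (Finset.range l).restrict ω.2)) := by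
        funext ω
        simp only [Function.comp_apply, walk, Finset.restrict]
        rw [eq_sub_iff_add_eq, add_assoc]
        congr 1
        have e1 : (∑ j : ↥(Finset.range l), if i ≤ (j : ℕ) then ω.2 j else 0)
            = ∑ j ∈ Finset.range l, if i ≤ j then ω.2 j else 0 :=
          Finset.sum_coe_sort (Finset.range l) (fun j => if i ≤ j then ω.2 j else 0)
        rw [e1, ← Finset.sum_filter]
        have e2 : (Finset.range l).filter (fun j => i ≤ j) = Finset.Ico i l := by
          ext j; simp only [Finset.mem_filter, Finset.mem_range, Finset.mem_Ico]; omega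
        rw [e2, Finset.sum_range_add_sum_Ico _ hi]
      rw [hfac, ← MeasurableSpace.comap_comp]
      refine MeasurableSpace.comap_mono ?_
      refine Measurable.comap_le ?_
      refine measurable_fst.sub (Finset.measurable_fun_sum _ fun j _ => ?_)
      split_ifs
      · exact (measurable_pi_apply j).comp measurable_snd
      · exact measurable_const
    obtain ⟨A'', h1, h2⟩ := hm hA
    exact ⟨A'', h1, h2.symm⟩
  -- `S` only depends on the position at time `l + k` and the later steps
  obtain ⟨S'', hS''m, hS''⟩ : ∃ S'' : Set (X × (ℕ → X)),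
      MeasurableSet S'' ∧ walk ⁻¹' S =
        (fun ω : X × (ℕ → X) => (walk ω (l + k), fun j => ω.2 (l + k + j))) ⁻¹' S'' := by
    have hm : Measurable[MeasurableSpace.comap
        (fun ω : X × (ℕ → X) => (walk ω (l + k), fun j => ω.2 (l + k + j))) inferInstance,
        ⨆ (i : ℕ) (_ : l + k ≤ i), MeasurableSpace.comap (fun ω : ℕ → X => ω i) inferInstance]
        (walk : X × (ℕ → X) → ℕ → X) := by
      rw [measurable_iff_comap_le, MeasurableSpace.comap_iSup]
      refine iSup_le fun i => ?_
      rw [MeasurableSpace.comap_iSup]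
      refine iSup_le fun hi => ?_
      rw [MeasurableSpace.comap_comp]
      have hfac : (fun ω : ℕ → X => ω i) ∘ (walk : X × (ℕ → X) → ℕ → X)
          = (fun p : X × (ℕ → X) => walk p (i - (l + k))) ∘
            (fun ω : X × (ℕ → X) => (walk ω (l + k), fun j => ω.2 (l + k + j))) := by
        funext ω
        simp only [Function.comp_apply]
        rw [← walk_add]
        congr 1
        omega
      rw [hfac, ← MeasurableSpace.comap_comp]
      refine MeasurableSpace.comap_mono ?_
      refine Measurable.comap_le ?_
      exact (measurable_pi_apply _).comp measurable_walk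
    obtain ⟨S'', h1, h2⟩ := hm hS
    exact ⟨S'', h1, h2.symm⟩
  -- positions at times `l` and `l + k`
  have hpos : ∀ ω : X × (ℕ → X),
      walk ω (l + k) = walk ω l + ∑ i ∈ Finset.Ico l (l + k), ω.2 i := by
    intro ω
    unfold walk
    rw [add_assoc, Finset.sum_range_add_sum_Ico _ (by omega)]
  have hr := rearr_preserving lam μ hinv l k
  -- the sets in the rearranged space
  let EA : Set (((↥(Finset.range l) → X) × (ℕ → X)) × (X × X)) :=
    {q | (q.2.2, q.1.1) ∈ A''}
  let ES : Set (((↥(Finset.range l) → X) × (ℕ → X)) × (X × X)) :=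
    {q | (q.2.2 + q.2.1, q.1.2) ∈ S''}
  have hEAm : MeasurableSet EA := by
    have : Measurable (fun q : ((↥(Finset.range l) → X) × (ℕ → X)) × (X × X) =>
      (q.2.2, q.1.1)) := by fun_prop
    exact this hA''m
  have hESm : MeasurableSet ES := by
    have : Measurable (fun q : ((↥(Finset.range l) → X) × (ℕ → X)) × (X × X) =>
      (q.2.2 + q.2.1, q.1.2)) := by fun_prop
    exact this hS''m
  have hAE : walk ⁻¹' A = rearr l k ⁻¹' EA := by
    rw [hA'']; rfl
  have hSE : walk ⁻¹' S = rearr l k ⁻¹' ES := by
    rw [hS'']
    ext ω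
    simp only [Set.mem_preimage, ES, rearr, Set.mem_ofPred_eq]
    rw [hpos]
  have tr : ∀ (C : Set (ℕ → X)) (EC : Set (((↥(Finset.range l) → X) × (ℕ → X)) ×
      (X × X))), MeasurableSet C → MeasurableSet EC → walk ⁻¹' C = rearr l k ⁻¹' EC →
      (walkLaw lam μ).real C = ((U.prod W).prod (ν.prod lam)).real EC := by
    intro C EC hC hEC h
    unfold walkLaw
    rw [map_measureReal_apply measurable_walk hC, h,
      ← map_measureReal_apply hr.measurable hEC, hr.map_eq]
  have hPA := tr A EA hAm hEAm hAE
  have hPS := tr S ES hSm hESm hSE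
  have hPAS := tr (A ∩ S) (EA ∩ ES) (hAm.inter hSm) (hEAm.inter hESm) (by
    rw [Set.preimage_inter, Set.preimage_inter, hAE, hSE])
  -- slices
  have hfub : ∀ E : Set (((↥(Finset.range l) → X) × (ℕ → X)) × (X × X)),
      MeasurableSet E → ((U.prod W).prod (ν.prod lam)).real E
        = ∫ ut, (ν.prod lam).real (Prod.mk ut ⁻¹' E) ∂(U.prod W) := by
    intro E hE
    rw [Measure.real, Measure.prod_apply hE, integral_eq_lintegral_of_nonneg_ae]
    · congr 1
      refine lintegral_congr fun ut => ?_
      rw [Measure.real, ENNReal.ofReal_toReal (measure_ne_top _ _)]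
    · exact ae_of_all _ fun ut => measureReal_nonneg
    · exact (measurable_measure_prodMk_left hE).ennreal_toReal.aestronglyMeasurable
  have hint : ∀ E : Set (((↥(Finset.range l) → X) × (ℕ → X)) × (X × X)),
      MeasurableSet E → Integrable (fun ut => (ν.prod lam).real (Prod.mk ut ⁻¹' E))
        (U.prod W) := by
    intro E hE
    refine Integrable.of_bound
      (measurable_measure_prodMk_left hE).ennreal_toReal.aestronglyMeasurable 1 ?_
    refine ae_of_all _ fun ut => ?_
    rw [Real.norm_of_nonneg measureReal_nonneg]
    exact measureReal_le_one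
  -- slice sets
  let Au : (↥(Finset.range l) → X) → Set X := fun u => {y | (y, u) ∈ A''}
  let St : (ℕ → X) → Set X := fun t => {y | (y, t) ∈ S''}
  have hAum : ∀ u, MeasurableSet (Au u) := fun u =>
    (measurable_id.prodMk measurable_const) hA''m
  have hStm : ∀ t, MeasurableSet (St t) := fun t =>
    (measurable_id.prodMk measurable_const) hS''m
  have hslA : ∀ ut : (↥(Finset.range l) → X) × (ℕ → X),
      (ν.prod lam).real (Prod.mk ut ⁻¹' EA) = lam.real (Au ut.1) := by
    intro ut
    have : Prod.mk ut ⁻¹' EA = Set.univ ×ˢ (Au ut.1) := by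
      ext p; simp [EA, Au]
    rw [this, measureReal_prod_prod]; simp
  have hslS : ∀ ut : (↥(Finset.range l) → X) × (ℕ → X),
      (ν.prod lam).real (Prod.mk ut ⁻¹' ES) = lam.real (St ut.2) := by
    intro ut
    have hm : MeasurableSet (Prod.mk ut ⁻¹' ES) := measurable_prodMk_left hESm
    rw [Measure.real, Measure.real, Measure.prod_apply hm]
    congr 1
    have : ∀ z : X, lam (Prod.mk z ⁻¹' (Prod.mk ut ⁻¹' ES)) = lam (St ut.2) := by
      intro z
      conv_rhs => rw [← hinv z]
      rw [Measure.map_apply (f := fun x => x + z) (measurable_id.add_const z) (hStm _)]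
      rfl
    simp_rw [this]
    simp
  have hslAS : ∀ ut : (↥(Finset.range l) → X) × (ℕ → X),
      |(ν.prod lam).real (Prod.mk ut ⁻¹' (EA ∩ ES)) - lam.real (Au ut.1) * lam.real (St ut.2)|
        ≤ c := by
    intro ut
    have := hmix (Au ut.1) (St ut.2) (hAum _) (hStm _)
    exact this
  -- conclude
  have hprod : (walkLaw lam μ).real A * (walkLaw lam μ).real S
      = ∫ ut, lam.real (Au ut.1) * lam.real (St ut.2) ∂(U.prod W) := by
    rw [hPA, hPS, hfub EA hEAm, hfub ES hESm]
    simp_rw [hslA, hslS]
    rw [integral_prod_mul (fun u => lam.real (Au u)) (fun t => lam.real (St t)),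
      integral_fun_fst (fun u => lam.real (Au u)), integral_fun_snd (fun t => lam.real (St t))]
    simp
  have hintA : Integrable (fun ut : (↥(Finset.range l) → X) × (ℕ → X) =>
      lam.real (Au ut.1) * lam.real (St ut.2)) (U.prod W) := by
    have h1 := hint EA hEAm
    have h2 := hint ES hESm
    simp_rw [hslA] at h1
    simp_rw [hslS] at h2
    refine h1.mul_bdd (c := 1) h2.aestronglyMeasurable ?_
    refine ae_of_all _ fun ut => ?_
    rw [Real.norm_of_nonneg measureReal_nonneg]
    exact measureReal_le_one
  rw [hprod, hPAS, hfub _ (hEAm.inter hESm), ← integral_sub (hint _ (hEAm.inter hESm)) hintA]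
  have hcb := norm_integral_le_of_norm_le_const (μ := U.prod W)
    (f := fun ut => (ν.prod lam).real (Prod.mk ut ⁻¹' (EA ∩ ES))
      - lam.real (Au ut.1) * lam.real (St ut.2)) (C := c)
    (ae_of_all _ fun ut => by rw [Real.norm_eq_abs]; exact hslAS ut)
  simpa using hcb

end Pool.Agent.Lib_helper83
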