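import Mathlib
import Pool.Agent.Lib_helper83.Walk

set_option autoImplicit false
set_option linter.unusedSectionVars false

open MeasureTheory Measure ProbabilityTheory
open scoped BigOperators ENNReal

namespace Pool.Agent.Lib_helper83

section pi

variable {ι : Type*} [Fintype ι] {V : ι → Type*} [∀ i, AddCommGroup (V i)]
  [∀ i, Fintype (V i)] [∀ i, MeasurableSpace (V i)] [∀ i, MeasurableSingletonClass (V i)]

theorem norm_addChar_le_one {G : Type*} [AddCommGroup G] [Finite G] (ψ : AddChar G ℂ) (x : G) :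
    ‖ψ x‖ ≤ 1 := (AddChar.norm_apply ψ x).le

/-- Fourier coefficients of a product measure on a finite product of finite groups. -/
theorem norm_integral_addChar_pi (m : ∀ i, Measure (V i)) [∀ i, IsProbabilityMeasure (m i)]
    (ρ : ℝ) (h : ∀ i (ψ : AddChar (V i) ℂ), ψ ≠ 0 → ‖∫ x, ψ x ∂(m i)‖ ≤ ρ)
    (ψ : AddChar (∀ i, V i) ℂ) (hψ : ψ ≠ 0) :
    ‖∫ y, ψ y ∂(Measure.pi m)‖ ≤ ρ := by
  classical
  let χ : ∀ i, AddChar (V i) ℂ := fun i => ψ.compAddMonoidHom (AddMonoidHom.single V i)
  have hfac : ∀ y : (∀ i, V i), ψ y = ∏ i, χ i (y i) := by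
    intro y
    have h1 : y = ∑ i, Pi.single i (y i) := by
      exact (Finset.univ_sum_single y).symm
    have h2 : ∀ s : Finset ι, ψ (∑ i ∈ s, Pi.single i (y i)) = ∏ i ∈ s, χ i (y i) := by
      intro s
      induction s using Finset.induction_on with
      | empty => simp
      | insert a s ha ih =>
        rw [Finset.sum_insert ha, Finset.prod_insert ha, AddChar.map_add_eq_mul, ih]
        rfl
    conv_lhs => rw [h1]
    exact h2 Finset.univ
  have hint : ∫ y, ψ y ∂(Measure.pi m) = ∏ i, ∫ x, χ i x ∂(m i) := by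
    simp_rw [hfac]
    exact integral_fintype_prod_eq_prod (fun i x => χ i x)
  obtain ⟨i, hi⟩ : ∃ i, χ i ≠ 0 := by
    by_contra hcon
    push Not at hcon
    apply hψ
    rw [AddChar.eq_zero_iff]
    intro y
    rw [hfac]
    refine Finset.prod_eq_one fun i _ => ?_
    rw [hcon i]; simp
  rw [hint, norm_prod, ← Finset.mul_prod_erase Finset.univ _ (Finset.mem_univ i)]
  have hle1 : ∏ j ∈ Finset.univ.erase i, ‖∫ x, χ j x ∂(m j)‖ ≤ 1 := by
    refine Finset.prod_le_one (fun j _ => norm_nonneg _) fun j _ => ?_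
    have := norm_integral_le_of_norm_le_const (μ := m j) (f := fun x => χ j x) (C := 1)
      (ae_of_all _ fun x => norm_addChar_le_one (χ j) x)
    simpa using this
  calc ‖∫ x, χ i x ∂(m i)‖ * ∏ j ∈ Finset.univ.erase i, ‖∫ x, χ j x ∂(m j)‖
      ≤ ‖∫ x, χ i x ∂(m i)‖ * 1 :=
        mul_le_mul_of_nonneg_left hle1 (norm_nonneg _)
    _ ≤ ρ := by rw [mul_one]; exact h i (χ i) hi

end pi

section infinite

variable {V : ℕ → Type*} [∀ i, AddCommGroup (V i)] [∀ i, Fintype (V i)]
  [∀ i, MeasurableSpace (V i)] [∀ i, MeasurableSingletonClass (V i)]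

/-- Fourier coefficients of the law of a sum of `k` steps. -/
theorem norm_integral_stepSum [MeasurableAdd₂ (∀ i, V i)] [MeasurableSub₂ (∀ i, V i)]
    (m : ∀ i, Measure (V i)) [∀ i, IsProbabilityMeasure (m i)]
    (ρ : ℝ) (h : ∀ i (ψ : AddChar (V i) ℂ), ψ ≠ 0 → ‖∫ x, ψ x ∂(m i)‖ ≤ ρ)
    (l k : ℕ) (s : Finset ℕ) (ψ : AddChar (∀ i : s, V i) ℂ) (hψ : ψ ≠ 0) :
    ‖∫ z, ψ (s.restrict z) ∂(stepSum (infinitePi m) l k)‖ ≤ ρ ^ k := by
  have hrm : Measurable (s.restrict (π := V)) := Finset.measurable_restrict s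
  have hψm : Measurable (fun y : (∀ i : s, V i) => ψ y) := measurable_of_finite _
  have hgm : Measurable (fun x : (∀ i, V i) => ψ (s.restrict x)) := hψm.comp hrm
  have h1 : ∫ z, ψ (s.restrict z) ∂(stepSum (infinitePi m) l k)
      = (∫ x, ψ (s.restrict x) ∂(infinitePi m)) ^ k := by
    unfold stepSum
    rw [integral_map (measurable_sum_coord _).aemeasurable hgm.aestronglyMeasurable]
    have h2 : ∀ w : ℕ → (∀ i, V i), ψ (s.restrict (∑ i ∈ Finset.Ico l (l + k), w i))
        = ∏ i ∈ Finset.Ico l (l + k), ψ (s.restrict (w i)) := by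
      intro w
      have h3 : ∀ J : Finset ℕ, ψ (s.restrict (∑ i ∈ J, w i)) = ∏ i ∈ J, ψ (s.restrict (w i)) := by
        classical
        intro J
        induction J using Finset.induction_on with
        | empty =>
          have : s.restrict (0 : ∀ i, V i) = 0 := rfl
          simp [this]
        | insert a J ha ih =>
          rw [Finset.sum_insert ha, Finset.prod_insert ha, ← ih, ← AddChar.map_add_eq_mul]
          rfl
      exact h3 _
    simp_rw [h2]
    have h4 : ∀ w : ℕ → (∀ i, V i), ∏ i ∈ Finset.Ico l (l + k), ψ (s.restrict (w i))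
        = (fun u : (↥(Finset.Ico l (l + k)) → (∀ i, V i)) => ∏ i, ψ (s.restrict (u i)))
          ((Finset.Ico l (l + k)).restrict w) := by
      intro w
      exact (Finset.prod_coe_sort (Finset.Ico l (l + k)) (fun i => ψ (s.restrict (w i)))).symm
    simp_rw [h4]
    rw [integral_restrict_infinitePi (μ := fun _ : ℕ => infinitePi m)
      (s := Finset.Ico l (l + k))
      (f := fun u : (↥(Finset.Ico l (l + k)) → (∀ i, V i)) => ∏ i, ψ (s.restrict (u i)))]
    · rw [integral_fintype_prod_eq_prod (E := fun _ : ↥(Finset.Ico l (l + k)) => (∀ i, V i))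
        (fun _ x => ψ (s.restrict x))]
      simp
    · refine Measurable.aestronglyMeasurable ?_
      exact Finset.measurable_fun_prod _ fun i _ => hgm.comp (measurable_pi_apply i)
  rw [h1, norm_pow]
  have h5 : ∫ x, ψ (s.restrict x) ∂(infinitePi m)
      = ∫ y, ψ y ∂(Measure.pi fun i : s => m i) :=
    integral_restrict_infinitePi (μ := m) (s := s) (f := fun y => ψ y) hψm.aestronglyMeasurable
  rw [h5]
  exact pow_le_pow_left₀ (norm_nonneg _)
    (norm_integral_addChar_pi (fun i : s => m i) ρ (fun i => h i) ψ hψ) k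

end infinite

section level

variable (r p : ℕ) [Fact p.Prime]

/-- The step with parameters `(a, b)`: `b • (1, a, a², …)`. -/
def stepMap (ab : ZMod p × ZMod p) : Fin r → ZMod p := fun i => ab.2 * ab.1 ^ (i : ℕ)

/-- The law of a step for uniform parameters. -/
noncomputable def stepDist : Measure (Fin r → ZMod p) :=
  (uniformOn (Set.univ : Set (ZMod p × ZMod p))).map (stepMap r p)

instance : IsProbabilityMeasure (uniformOn (Set.univ : Set (ZMod p × ZMod p))) :=
  isProbabilityMeasure_uniformOn Set.finite_univ Set.univ_nonempty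

theorem measurable_stepMap : Measurable (stepMap r p) := measurable_of_finite _

instance : IsProbabilityMeasure (stepDist r p) :=
  isProbabilityMeasure_map (measurable_stepMap r p).aemeasurable

theorem uniformOn_real_singleton {G : Type*} [Fintype G] [MeasurableSpace G]
    [MeasurableSingletonClass G] (y : G) :
    (uniformOn (Set.univ : Set G)).real {y} = 1 / Fintype.card G := by
  rw [Measure.real, uniformOn_univ]
  simp

/-- At most `r - 1` of the directions are killed by a nontrivial character. -/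
theorem card_bad_lt (ψ : AddChar (Fin r → ZMod p) ℂ) (hψ : ψ ≠ 0)
    (bad : Finset (ZMod p)) (hbad : ∀ a ∈ bad, ∀ b, ψ (stepMap r p (a, b)) = 1) :
    bad.card < r := by
  classical
  by_contra hcon
  push Not at hcon
  apply hψ
  rw [AddChar.eq_zero_iff]
  intro x
  obtain ⟨T, hTsub, hTcard⟩ := Finset.exists_subset_card_eq hcon
  let e : Fin r ≃ T := (Fintype.equivFinOfCardEq (by simpa using hTcard)).symm
  let a : Fin r → ZMod p := fun i => (e i : ZMod p)
  have ha : Function.Injective a := fun i j hij => e.injective (Subtype.ext hij)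
  have hdet : (Matrix.vandermonde a).det ≠ 0 := Matrix.det_vandermonde_ne_zero_iff.mpr ha
  have hunit : IsUnit (Matrix.vandermonde a).det := isUnit_iff_ne_zero.mpr hdet
  -- coefficients
  let b : Fin r → ZMod p := Matrix.vecMul x (Matrix.vandermonde a)⁻¹
  have hb : Matrix.vecMul b (Matrix.vandermonde a) = x := by
    simp only [b]
    rw [Matrix.vecMul_vecMul, Matrix.nonsing_inv_mul _ hunit, Matrix.vecMul_one]
  have hx : x = ∑ i, stepMap r p (a i, b i) := by
    rw [← hb]
    funext j
    simp only [Matrix.vecMul, dotProduct, Matrix.vandermonde_apply, Finset.sum_apply, stepMap]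
  have hsum : ∀ s : Finset (Fin r), ψ (∑ i ∈ s, stepMap r p (a i, b i)) = 1 := by
    intro s
    induction s using Finset.induction_on with
    | empty => simp
    | insert i s hi ih =>
      rw [Finset.sum_insert hi, AddChar.map_add_eq_mul, ih, mul_one]
      exact hbad (a i) (hTsub (e i).2) (b i)
  rw [hx]
  exact hsum Finset.univ

theorem norm_integral_stepDist (ψ : AddChar (Fin r → ZMod p) ℂ) (hψ : ψ ≠ 0) :
    ‖∫ x, ψ x ∂(stepDist r p)‖ ≤ (r : ℝ) / p := by
  classical
  have hp : 0 < p := (Fact.out : p.Prime).pos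
  have hpR : (0 : ℝ) < p := by exact_mod_cast hp
  unfold stepDist
  rw [integral_map (measurable_stepMap r p).aemeasurable
    (measurable_of_finite _).aestronglyMeasurable, integral_fintype .of_finite]
  simp_rw [uniformOn_real_singleton]
  rw [Fintype.sum_prod_type]
  let bad : Finset (ZMod p) := Finset.univ.filter fun a => ∀ b, ψ (stepMap r p (a, b)) = 1
  have hbadcard : bad.card < r := card_bad_lt r p ψ hψ bad (by
    intro a ha; exact (Finset.mem_filter.mp ha).2)
  -- the inner sums
  have hinner : ∀ a : ZMod p, ‖∑ b : ZMod p, (1 / (Fintype.card (ZMod p × ZMod p) : ℝ)) •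
      ψ (stepMap r p (a, b))‖ ≤ if a ∈ bad then 1 / (p : ℝ) else 0 := by
    intro a
    split_ifs with ha
    · calc ‖∑ b : ZMod p, (1 / (Fintype.card (ZMod p × ZMod p) : ℝ)) •
            ψ (stepMap r p (a, b))‖
          ≤ ∑ b : ZMod p, ‖(1 / (Fintype.card (ZMod p × ZMod p) : ℝ)) •
            ψ (stepMap r p (a, b))‖ := norm_sum_le _ _
        _ ≤ ∑ _b : ZMod p, (1 / ((p : ℝ) * p)) := by
            refine Finset.sum_le_sum fun b _ => ?_
            rw [norm_smul, AddChar.norm_apply, mul_one, Fintype.card_prod, ZMod.card]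
            rw [Real.norm_of_nonneg (by positivity)]
            push_cast
            exact le_rfl
        _ = 1 / (p : ℝ) := by
            rw [Finset.sum_const, Finset.card_univ, ZMod.card, nsmul_eq_mul]
            field_simp
    · have hex : ¬ ∀ b, ψ (stepMap r p (a, b)) = 1 := by
        intro h; exact ha (Finset.mem_filter.mpr ⟨Finset.mem_univ _, h⟩)
      -- the character `b ↦ ψ (b v(a))`
      let f : ZMod p →+ (Fin r → ZMod p) :=
        { toFun := fun b => stepMap r p (a, b)
          map_zero' := by funext i; simp [stepMap]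
          map_add' := by intro b b'; funext i; simp [stepMap, add_mul] }
      have hne : ψ.compAddMonoidHom f ≠ 0 := by
        intro h0
        apply hex
        intro b
        have := congrArg (fun χ : AddChar (ZMod p) ℂ => χ b) h0
        simpa [f] using this
      have hsum := AddChar.sum_eq_zero_iff_ne_zero.mpr hne
      have : ∑ b : ZMod p, (1 / (Fintype.card (ZMod p × ZMod p) : ℝ)) •
          ψ (stepMap r p (a, b)) = 0 := by
        rw [← Finset.smul_sum]
        have h2 : ∑ b : ZMod p, ψ (stepMap r p (a, b)) = 0 := hsum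
        rw [h2, smul_zero]
      rw [this, norm_zero]
  calc ‖∑ a : ZMod p, ∑ b : ZMod p, (1 / (Fintype.card (ZMod p × ZMod p) : ℝ)) •
        ψ (stepMap r p (a, b))‖
      ≤ ∑ a : ZMod p, ‖∑ b : ZMod p, (1 / (Fintype.card (ZMod p × ZMod p) : ℝ)) •
        ψ (stepMap r p (a, b))‖ := norm_sum_le _ _
    _ ≤ ∑ a : ZMod p, if a ∈ bad then 1 / (p : ℝ) else 0 :=
        Finset.sum_le_sum fun a _ => hinner a
    _ = (bad.card : ℝ) * (1 / p) := by
        rw [Finset.sum_ite_mem, Finset.univ_inter, Finset.sum_const, nsmul_eq_mul]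
    _ ≤ (r : ℝ) / p := by
        rw [mul_one_div]
        gcongr

end level

end Pool.Agent.Lib_helper83
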