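import Mathlib
import Pool.Agent.Lib_helper83.Levels
import Pool.Agent.Lib_helper83.Iid

set_option autoImplicit false
set_option linter.unusedSectionVars false

open MeasureTheory Measure ProbabilityTheory Filter Topology
open scoped BigOperators ENNReal

namespace Pool.Agent.Lib_helper83.Alpha

/-- The time horizon of level `κ`. -/
def hor (κ : ℕ) : ℕ := κ + 1

/-- The prime of level `κ`. -/
noncomputable def pr (κ : ℕ) : ℕ :=
  Classical.choose (Nat.exists_infinite_primes (2 ^ (κ + 2) * (κ + 1)))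

theorem pr_ge (κ : ℕ) : 2 ^ (κ + 2) * (κ + 1) ≤ pr κ :=
  (Classical.choose_spec (Nat.exists_infinite_primes (2 ^ (κ + 2) * (κ + 1)))).1

theorem pr_prime (κ : ℕ) : (pr κ).Prime :=
  (Classical.choose_spec (Nat.exists_infinite_primes (2 ^ (κ + 2) * (κ + 1)))).2

instance (κ : ℕ) : Fact (pr κ).Prime := ⟨pr_prime κ⟩

theorem pr_ge_pow (κ : ℕ) : 2 ^ (κ + 2) ≤ pr κ :=
  le_trans (Nat.le_mul_of_pos_right _ (Nat.succ_pos κ)) (pr_ge κ)

theorem pr_pos (κ : ℕ) : 0 < pr κ := (pr_prime κ).pos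

theorem pr_ge_four (κ : ℕ) : 4 ≤ pr κ := by
  refine le_trans ?_ (pr_ge_pow κ)
  calc 4 = 2 ^ 2 := by norm_num
    _ ≤ 2 ^ (κ + 2) := Nat.pow_le_pow_right (by norm_num) (by omega)

/-- The group of level `κ`. -/
abbrev V (κ : ℕ) : Type := Fin (2 * hor κ) → ZMod (pr κ)

/-- The state space: the product of all levels. -/
abbrev St : Type := ∀ κ : ℕ, V κ

/-- The uniform distribution on level `κ`. -/
noncomputable def lamV (κ : ℕ) : Measure (V κ) := uniformOn Set.univ

/-- The distribution of a step on level `κ`. -/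
noncomputable def stV (κ : ℕ) : Measure (V κ) := stepDist (2 * hor κ) (pr κ)

instance (κ : ℕ) : IsProbabilityMeasure (lamV κ) :=
  isProbabilityMeasure_uniformOn Set.finite_univ Set.univ_nonempty

instance (κ : ℕ) : IsProbabilityMeasure (stV κ) := by unfold stV; infer_instance

/-- The stationary distribution. -/
noncomputable def LAM : Measure St := infinitePi lamV

/-- The step distribution. -/
noncomputable def STEP : Measure St := infinitePi stV

instance : IsProbabilityMeasure LAM := by unfold LAM; infer_instance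

instance : IsProbabilityMeasure STEP := by unfold STEP; infer_instance

theorem lamV_inv (κ : ℕ) (g : V κ) : (lamV κ).map (fun x => x + g) = lamV κ := by
  rw [Measure.ext_iff_singleton]
  intro a
  rw [Measure.map_apply (measurable_of_finite _) (measurableSet_singleton a)]
  have : (fun x : V κ => x + g) ⁻¹' {a} = {a - g} := by
    ext x
    simp only [Set.mem_preimage, Set.mem_singleton_iff]
    exact eq_sub_iff_add_eq.symm
  rw [this]
  unfold lamV
  rw [uniformOn_univ, uniformOn_univ]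
  simp

theorem LAM_inv (g : St) : LAM.map (fun x => x + g) = LAM := by
  unfold LAM
  have h := infinitePi_map_pi (μ := lamV) (f := fun κ (x : V κ) => x + g κ)
    (fun κ => measurable_of_finite _)
  simp_rw [lamV_inv] at h
  exact h

theorem mix_all (l k : ℕ) : Mix LAM (stepSum STEP l k) ((1 / 2 : ℝ) ^ k) := by
  refine mix_infinitePi lamV (fun κ y => uniformOn_real_singleton y) (stepSum STEP l k)
    LAM_inv _ (by positivity) ?_
  intro s ψ hψ
  refine norm_integral_stepSum stV (1 / 2) ?_ l k s ψ hψ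
  intro κ χ hχ
  refine (norm_integral_stepDist (2 * hor κ) (pr κ) χ hχ).trans ?_
  have hp : (0 : ℝ) < pr κ := by exact_mod_cast pr_pos κ
  rw [div_le_iff₀ hp]
  have h1 : 4 * (κ + 1) ≤ pr κ := by
    refine le_trans ?_ (pr_ge κ)
    refine Nat.mul_le_mul_right _ ?_
    calc 4 = 2 ^ 2 := by norm_num
      _ ≤ 2 ^ (κ + 2) := Nat.pow_le_pow_right (by norm_num) (by omega)
  have h2 : (4 : ℝ) * (κ + 1) ≤ pr κ := by exact_mod_cast h1
  have h3 : ((2 * hor κ : ℕ) : ℝ) = 2 * ((κ : ℝ) + 1) := by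
    unfold hor; push_cast; ring
  rw [h3]
  linarith

/-! ### The class of functions -/

/-- Indices of trajectories at level `κ`. -/
abbrev Idx (κ : ℕ) : Type := V κ × (Fin (hor κ) → ZMod (pr κ) × ZMod (pr κ))

/-- The trajectory with given start and step parameters. -/
noncomputable def traj (κ : ℕ) (c : Idx κ) (j : Fin (hor κ)) : V κ :=
  c.1 + ∑ i ∈ Finset.univ.filter (fun i => i < j), stepMap (2 * hor κ) (pr κ) (c.2 i)

/-- The set of points of a trajectory. -/
noncomputable def Cset (κ : ℕ) (c : Idx κ) : Finset (V κ) := Finset.univ.image (traj κ c)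

/-- The cylinder over the set of points of a trajectory. -/
def Dset (κ : ℕ) (c : Idx κ) : Set St := {x | x κ ∈ Cset κ c}

noncomputable instance (κ : ℕ) (c : Idx κ) : DecidablePred (· ∈ Dset κ c) :=
  fun x => inferInstanceAs (Decidable (x κ ∈ Cset κ c))

/-- The indicator function of the cylinder over a trajectory. -/
noncomputable def ff (κ : ℕ) (c : Idx κ) : St → ℝ := fun x => if x ∈ Dset κ c then 1 else 0

/-- The class of functions. -/
def FF : Set (St → ℝ) := {f | ∃ (κ : ℕ) (c : Idx κ), f = ff κ c}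

theorem measurableSet_Dset (κ : ℕ) (c : Idx κ) : MeasurableSet (Dset κ c) := by
  have h : MeasurableSet ((Cset κ c : Finset (V κ)) : Set (V κ)) := Finset.measurableSet _
  exact (measurable_pi_apply κ) h

theorem measurable_ff (κ : ℕ) (c : Idx κ) : Measurable (ff κ c) :=
  Measurable.ite (measurableSet_Dset κ c) measurable_const measurable_const

theorem ff_bounds (κ : ℕ) (c : Idx κ) (x : St) : 0 ≤ ff κ c x ∧ ff κ c x ≤ 1 := by
  unfold ff; split_ifs <;> simp

theorem card_Cset_le (κ : ℕ) (c : Idx κ) : (Cset κ c).card ≤ hor κ := by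
  unfold Cset
  refine Finset.card_image_le.trans ?_
  simp

/-- The bound on the measure of a trajectory cylinder. -/
noncomputable def qq (κ : ℕ) : ℝ≥0∞ := ((pr κ : ℝ≥0∞)⁻¹) ^ (hor κ)

theorem LAM_Dset_le (κ : ℕ) (c : Idx κ) : LAM (Dset κ c) ≤ qq κ := by
  have hpos : (pr κ : ℝ≥0∞) ≠ 0 := by exact_mod_cast (pr_pos κ).ne'
  have htop : (pr κ : ℝ≥0∞) ≠ ⊤ := ENNReal.natCast_ne_top _
  have h1 : LAM (Dset κ c) = lamV κ ((Cset κ c : Finset (V κ)) : Set (V κ)) := by
    have h2 := (measurePreserving_eval_infinitePi lamV κ).measure_preimage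
      (Finset.measurableSet (Cset κ c)).nullMeasurableSet
    exact h2
  rw [h1]
  unfold lamV
  rw [uniformOn_univ, Measure.count_apply_finset, Fintype.card_fun, ZMod.card, Fintype.card_fin]
  unfold qq
  have h3 : ((Cset κ c).card : ℝ≥0∞) ≤ (pr κ : ℝ≥0∞) ^ (hor κ) := by
    have h4 : (Cset κ c).card ≤ pr κ ^ hor κ := by
      refine (card_Cset_le κ c).trans ?_
      exact (Nat.lt_pow_self (lt_of_lt_of_le (by norm_num) (pr_ge_four κ))).le
    exact_mod_cast h4
  have h5 : ((pr κ ^ (2 * hor κ) : ℕ) : ℝ≥0∞) = (pr κ : ℝ≥0∞) ^ hor κ * (pr κ : ℝ≥0∞) ^ hor κ := by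
    push_cast
    rw [← pow_add]; congr 1; ring
  rw [h5, ← ENNReal.inv_pow]
  calc ((Cset κ c).card : ℝ≥0∞) / ((pr κ : ℝ≥0∞) ^ hor κ * (pr κ : ℝ≥0∞) ^ hor κ)
      ≤ (pr κ : ℝ≥0∞) ^ hor κ / ((pr κ : ℝ≥0∞) ^ hor κ * (pr κ : ℝ≥0∞) ^ hor κ) := by
        gcongr
    _ = ((pr κ : ℝ≥0∞) ^ hor κ)⁻¹ := by
        rw [ENNReal.div_eq_inv_mul, ENNReal.mul_inv (Or.inl (pow_ne_zero _ hpos))
          (Or.inl (ENNReal.pow_ne_top htop)), mul_assoc,
          ENNReal.inv_mul_cancel (pow_ne_zero _ hpos) (ENNReal.pow_ne_top htop), mul_one]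

theorem qq_le_inv (κ : ℕ) : qq κ ≤ ((hor κ : ℝ≥0∞))⁻¹ := by
  unfold qq
  rw [← ENNReal.inv_pow, ENNReal.inv_le_inv]
  have : hor κ ≤ pr κ ^ hor κ :=
    (Nat.lt_pow_self (lt_of_lt_of_le (by norm_num) (pr_ge_four κ))).le
  exact_mod_cast this

theorem qq_le_quarter (κ : ℕ) : qq κ ≤ 4⁻¹ := by
  unfold qq
  rw [← ENNReal.inv_pow, ENNReal.inv_le_inv]
  have : 4 ≤ pr κ ^ hor κ := by
    refine (pr_ge_four κ).trans ?_
    exact Nat.le_self_pow (by unfold hor; omega) _
  exact_mod_cast this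

theorem qq_le_one (κ : ℕ) : qq κ ≤ 1 :=
  (qq_le_quarter κ).trans (by
    rw [ENNReal.inv_le_one]; norm_num)

theorem LAM_real_le_quarter (κ : ℕ) (c : Idx κ) : LAM.real (Dset κ c) ≤ 1 / 4 := by
  have h := (LAM_Dset_le κ c).trans (qq_le_quarter κ)
  rw [Measure.real]
  have h2 : (4⁻¹ : ℝ≥0∞).toReal = 1 / 4 := by simp
  rw [← h2]
  exact ENNReal.toReal_mono (by simp) h

theorem LAM_real_le_inv (κ : ℕ) (c : Idx κ) : LAM.real (Dset κ c) ≤ 1 / (hor κ : ℝ) := by
  have h := (LAM_Dset_le κ c).trans (qq_le_inv κ)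
  have hh : (hor κ : ℝ≥0∞) ≠ 0 := by
    have : hor κ ≠ 0 := by unfold hor; omega
    exact_mod_cast this
  rw [Measure.real]
  have h2 : ((hor κ : ℝ≥0∞)⁻¹).toReal = 1 / (hor κ : ℝ) := by simp
  rw [← h2]
  exact ENNReal.toReal_mono (ENNReal.inv_ne_top.mpr hh) h

theorem integral_ff (κ : ℕ) (c : Idx κ) : ∫ y, ff κ c y ∂LAM = LAM.real (Dset κ c) := by
  have h1 : ff κ c = (Dset κ c).indicator (fun _ => (1 : ℝ)) := by
    funext y; simp [ff, Set.indicator]
  rw [h1, integral_indicator_const _ (measurableSet_Dset κ c)]; simp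

theorem card_Idx (κ : ℕ) : Fintype.card (Idx κ) = pr κ ^ (4 * hor κ) := by
  unfold Idx V
  rw [Fintype.card_prod, Fintype.card_fun, Fintype.card_fun, Fintype.card_prod, ZMod.card,
    Fintype.card_fin, Fintype.card_fin, ← pow_two, ← pow_mul, ← pow_add]
  congr 1
  ring

/-- The deviation event for one function of the class. -/
def devSet (ε : ℝ) (n : ℕ) (f : St → ℝ) : Set (Fin n → St) :=
  {x : Fin n → St | ε < |(1 / (n : ℝ)) * ∑ i : Fin n, f (x i) - ∫ y, f y ∂LAM|}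

/-- The level bound: for levels `κ ≥ 2/ε` and `n ≥ 8/ε`. -/
theorem level_bound (ε : ℝ) (κ n : ℕ) (hn1 : 1 ≤ n) (hn : 8 ≤ ε * n)
    (hκ : 2 ≤ ε * hor κ) :
    Measure.pi (fun _ : Fin n => LAM) (⋃ c : Idx κ, devSet ε n (ff κ c))
      ≤ (2⁻¹ : ℝ≥0∞) ^ n * (2⁻¹ : ℝ≥0∞) ^ κ := by
  set K := ⌈ε * n⌉₊ with hK
  have hpos : (pr κ : ℝ≥0∞) ≠ 0 := by exact_mod_cast (pr_pos κ).ne'
  have htop : (pr κ : ℝ≥0∞) ≠ ⊤ := ENNReal.natCast_ne_top _
  have hKR : ε * n ≤ (K : ℝ) := Nat.le_ceil _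
  have hK8R : (8 : ℝ) ≤ (K : ℝ) := hn.trans hKR
  have hK8 : 8 ≤ K := by exact_mod_cast hK8R
  -- `n ≤ hor κ * (K - 4)`
  have hexp : n ≤ hor κ * (K - 4) := by
    have h1 : ((K - 4 : ℕ) : ℝ) = (K : ℝ) - 4 := by
      rw [Nat.cast_sub (by omega)]; norm_num
    have h2 : (n : ℝ) ≤ (hor κ : ℝ) * ((K : ℝ) - 4) := by
      have h3 : ε * n / 2 ≤ (K : ℝ) - 4 := by linarith
      have h4 : (0 : ℝ) ≤ hor κ := Nat.cast_nonneg _
      have h5 : (0 : ℝ) ≤ n := Nat.cast_nonneg _
      calc (n : ℝ) = 2 * (n / 2) := by ring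
        _ ≤ (ε * hor κ) * (n / 2) := by
            apply mul_le_mul_of_nonneg_right hκ (by positivity)
        _ = (hor κ : ℝ) * (ε * n / 2) := by ring
        _ ≤ (hor κ : ℝ) * ((K : ℝ) - 4) := mul_le_mul_of_nonneg_left h3 h4
    rw [← h1] at h2
    exact_mod_cast h2
  have hDε : ∀ c : Idx κ, LAM.real (Dset κ c) ≤ ε := by
    intro c
    refine (LAM_real_le_inv κ c).trans ?_
    have hh : (0 : ℝ) < hor κ := by
      have : 0 < hor κ := by unfold hor; omega
      exact_mod_cast this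
    rw [div_le_iff₀ hh]
    linarith
  have hone : ∀ c : Idx κ, Measure.pi (fun _ : Fin n => LAM) (devSet ε n (ff κ c))
      ≤ 2 ^ n * qq κ ^ K := by
    intro c
    exact indicator_dev_bound LAM (Dset κ c) (measurableSet_Dset κ c) (qq κ) (LAM_Dset_le κ c)
      (qq_le_one κ) n hn1 ε (hDε c)
  calc Measure.pi (fun _ : Fin n => LAM) (⋃ c : Idx κ, devSet ε n (ff κ c))
      ≤ ∑ c : Idx κ, Measure.pi (fun _ : Fin n => LAM) (devSet ε n (ff κ c)) :=
        measure_iUnion_fintype_le _ _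
    _ ≤ ∑ _c : Idx κ, 2 ^ n * qq κ ^ K := Finset.sum_le_sum fun c _ => hone c
    _ = (pr κ : ℝ≥0∞) ^ (4 * hor κ) * (2 ^ n * qq κ ^ K) := by
        rw [Finset.sum_const, Finset.card_univ, card_Idx, nsmul_eq_mul]
        push_cast
        rfl
    _ = 2 ^ n * ((pr κ : ℝ≥0∞)⁻¹) ^ (hor κ * (K - 4)) := by
        have h1 : qq κ ^ K = ((pr κ : ℝ≥0∞)⁻¹) ^ (4 * hor κ) *
            ((pr κ : ℝ≥0∞)⁻¹) ^ (hor κ * (K - 4)) := by
          unfold qq
          rw [← pow_mul, ← pow_add]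
          congr 1
          obtain ⟨K', hK'⟩ : ∃ K', K = K' + 4 := ⟨K - 4, by omega⟩
          rw [hK']
          simp only [Nat.add_sub_cancel]
          ring
        rw [h1]
        have h2 : (pr κ : ℝ≥0∞) ^ (4 * hor κ) * ((pr κ : ℝ≥0∞)⁻¹) ^ (4 * hor κ) = 1 := by
          rw [← mul_pow, ENNReal.mul_inv_cancel hpos htop, one_pow]
        calc (pr κ : ℝ≥0∞) ^ (4 * hor κ) * (2 ^ n * (((pr κ : ℝ≥0∞)⁻¹) ^ (4 * hor κ) *
            ((pr κ : ℝ≥0∞)⁻¹) ^ (hor κ * (K - 4))))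
            = 2 ^ n * (((pr κ : ℝ≥0∞) ^ (4 * hor κ) * ((pr κ : ℝ≥0∞)⁻¹) ^ (4 * hor κ)) *
              ((pr κ : ℝ≥0∞)⁻¹) ^ (hor κ * (K - 4))) := by ring
          _ = _ := by rw [h2, one_mul]
    _ ≤ 2 ^ n * ((pr κ : ℝ≥0∞)⁻¹) ^ n := by
        gcongr 2 ^ n * ?_
        refine pow_le_pow_of_le_one zero_le ?_ hexp
        rw [ENNReal.inv_le_one]
        exact_mod_cast (pr_pos κ)
    _ = (2 * (pr κ : ℝ≥0∞)⁻¹) ^ n := by rw [mul_pow]
    _ ≤ ((2⁻¹ : ℝ≥0∞) ^ (κ + 1)) ^ n := by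
        gcongr
        have h1 : ((2 : ℝ≥0∞) ^ (κ + 2)) ≤ (pr κ : ℝ≥0∞) := by exact_mod_cast pr_ge_pow κ
        calc 2 * (pr κ : ℝ≥0∞)⁻¹ ≤ 2 * ((2 : ℝ≥0∞) ^ (κ + 2))⁻¹ := by
              gcongr
          _ = (2⁻¹ : ℝ≥0∞) ^ (κ + 1) := by
              rw [← ENNReal.inv_pow]
              rw [show κ + 2 = (κ + 1) + 1 from rfl, pow_succ (2 : ℝ≥0∞) (κ + 1),
                ENNReal.mul_inv (Or.inr (by norm_num)) (Or.inr (by norm_num)), mul_comm, mul_assoc,
                ENNReal.inv_mul_cancel (by norm_num) (by norm_num), mul_one]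
    _ = (2⁻¹ : ℝ≥0∞) ^ ((κ + 1) * n) := by rw [← pow_mul]
    _ ≤ (2⁻¹ : ℝ≥0∞) ^ (n + κ) := by
        refine pow_le_pow_of_le_one zero_le ?_ ?_
        · rw [ENNReal.inv_le_one]; norm_num
        · nlinarith
    _ = (2⁻¹ : ℝ≥0∞) ^ n * (2⁻¹ : ℝ≥0∞) ^ κ := by rw [pow_add]

theorem iid_ucem (ε : ℝ) (hε : 0 < ε) :
    Tendsto (fun n : ℕ => Measure.pi (fun _ : Fin n => LAM)
        {x : Fin n → St | ∃ f ∈ FF,
          ε < |(1 / (n : ℝ)) * ∑ i : Fin n, f (x i) - ∫ y, f y ∂LAM|}) atTop (𝓝 0) := by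
  obtain ⟨κ₀, hκ₀⟩ := exists_nat_ge (2 / ε)
  obtain ⟨n₀, hn₀⟩ := exists_nat_ge (8 / ε)
  have hκ : ∀ κ, κ₀ ≤ κ → 2 ≤ ε * hor κ := by
    intro κ hκ
    have h1 : (2 / ε) ≤ (hor κ : ℝ) := by
      refine hκ₀.trans ?_
      have : κ₀ ≤ hor κ := by unfold hor; omega
      exact_mod_cast this
    rw [div_le_iff₀ hε] at h1
    linarith
  have hn : ∀ n, n₀ ≤ n → 8 ≤ ε * (n : ℝ) := by
    intro n hn
    have h1 : (8 / ε) ≤ (n : ℝ) := hn₀.trans (by exact_mod_cast hn)
    rw [div_le_iff₀ hε] at h1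
    linarith
  -- the bounding sequence
  let bd : ℕ → ℝ≥0∞ := fun n =>
    (∑ κ ∈ Finset.range κ₀, ∑ c : Idx κ,
      Measure.pi (fun _ : Fin n => LAM) (devSet ε n (ff κ c))) + (2⁻¹ : ℝ≥0∞) ^ n * 2
  have hbd : Tendsto bd atTop (𝓝 0) := by
    have h1 : Tendsto (fun n : ℕ => ∑ κ ∈ Finset.range κ₀, ∑ c : Idx κ,
        Measure.pi (fun _ : Fin n => LAM) (devSet ε n (ff κ c))) atTop (𝓝 0) := by
      rw [show (0 : ℝ≥0∞) = ∑ κ ∈ Finset.range κ₀, ∑ _c : Idx κ, (0 : ℝ≥0∞) by simp]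
      refine tendsto_finsetSum _ fun κ _ => tendsto_finsetSum _ fun c _ => ?_
      exact weak_law LAM (ff κ c) (measurable_ff κ c) (ff_bounds κ c) ε hε
    have h2 : Tendsto (fun n : ℕ => (2⁻¹ : ℝ≥0∞) ^ n * 2) atTop (𝓝 0) := by
      have h3 : Tendsto (fun n : ℕ => (2⁻¹ : ℝ≥0∞) ^ n) atTop (𝓝 0) :=
        ENNReal.tendsto_pow_atTop_nhds_zero_of_lt_one (by
          rw [ENNReal.inv_lt_one]; norm_num)
      have h4 := ENNReal.Tendsto.mul_const (b := 2) h3 (Or.inr (by norm_num))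
      simpa using h4
    have h5 := h1.add h2
    simpa using h5
  refine tendsto_of_tendsto_of_tendsto_of_le_of_le' tendsto_const_nhds hbd
    (Eventually.of_forall fun _ => zero_le) ?_
  filter_upwards [eventually_ge_atTop n₀, eventually_ge_atTop 1] with n hnn hn1
  have hsub : {x : Fin n → St | ∃ f ∈ FF,
      ε < |(1 / (n : ℝ)) * ∑ i : Fin n, f (x i) - ∫ y, f y ∂LAM|}
      ⊆ (⋃ κ ∈ Finset.range κ₀, ⋃ c : Idx κ, devSet ε n (ff κ c)) ∪
        (⋃ κ : ℕ, ⋃ c : Idx (κ + κ₀), devSet ε n (ff (κ + κ₀) c)) := by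
    rintro x ⟨f, ⟨κ, c, rfl⟩, hx⟩
    by_cases h : κ < κ₀
    · refine Or.inl ?_
      simp only [Set.mem_iUnion]
      exact ⟨κ, Finset.mem_range.mpr h, c, hx⟩
    · refine Or.inr ?_
      obtain ⟨κ', rfl⟩ : ∃ κ', κ = κ' + κ₀ := ⟨κ - κ₀, by omega⟩
      simp only [Set.mem_iUnion]
      exact ⟨κ', c, hx⟩
  calc Measure.pi (fun _ : Fin n => LAM) {x : Fin n → St | ∃ f ∈ FF,
        ε < |(1 / (n : ℝ)) * ∑ i : Fin n, f (x i) - ∫ y, f y ∂LAM|}
      ≤ Measure.pi (fun _ : Fin n => LAM)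
        ((⋃ κ ∈ Finset.range κ₀, ⋃ c : Idx κ, devSet ε n (ff κ c)) ∪
        (⋃ κ : ℕ, ⋃ c : Idx (κ + κ₀), devSet ε n (ff (κ + κ₀) c))) := measure_mono hsub
    _ ≤ Measure.pi (fun _ : Fin n => LAM)
          (⋃ κ ∈ Finset.range κ₀, ⋃ c : Idx κ, devSet ε n (ff κ c)) +
        Measure.pi (fun _ : Fin n => LAM)
          (⋃ κ : ℕ, ⋃ c : Idx (κ + κ₀), devSet ε n (ff (κ + κ₀) c)) := measure_union_le _ _
    _ ≤ (∑ κ ∈ Finset.range κ₀, ∑ c : Idx κ,
          Measure.pi (fun _ : Fin n => LAM) (devSet ε n (ff κ c)))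
        + ∑' κ : ℕ, (2⁻¹ : ℝ≥0∞) ^ n * (2⁻¹ : ℝ≥0∞) ^ κ := by
        gcongr
        · refine (measure_biUnion_finset_le _ _).trans ?_
          exact Finset.sum_le_sum fun κ _ => measure_iUnion_fintype_le _ _
        · refine (measure_iUnion_le _).trans ?_
          refine ENNReal.tsum_le_tsum fun κ => ?_
          refine (level_bound ε (κ + κ₀) n hn1 (hn n hnn) (hκ _ (by omega))).trans ?_
          gcongr 2⁻¹ ^ n * ?_
          refine pow_le_pow_of_le_one zero_le ?_ (by omega)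
          rw [ENNReal.inv_le_one]; norm_num
    _ = bd n := by
        rw [ENNReal.tsum_mul_left, ENNReal.tsum_geometric]
        simp only [bd]
        congr 2
        rw [ENNReal.one_sub_inv_two, inv_inv]

/-! ### Failure for the process -/

theorem ae_steps (κ : ℕ) : ∀ᵐ ω ∂(base LAM STEP), ∀ i : ℕ,
    ω.2 i κ ∈ Set.range (stepMap (2 * hor κ) (pr κ)) := by
  rw [ae_all_iff]
  intro i
  have h1 : MeasurePreserving (fun ω : St × (ℕ → St) => ω.2 i κ) (base LAM STEP) (stV κ) := by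
    have h2 : MeasurePreserving (Prod.snd : St × (ℕ → St) → (ℕ → St)) (base LAM STEP)
        (infinitePi fun _ : ℕ => STEP) := measurePreserving_snd
    have h3 := measurePreserving_eval_infinitePi (fun _ : ℕ => STEP) i
    have h4 := measurePreserving_eval_infinitePi stV κ
    exact h4.comp (h3.comp h2)
  have h5 : ∀ᵐ z ∂(stV κ), z ∈ Set.range (stepMap (2 * hor κ) (pr κ)) := by
    unfold stV stepDist
    rw [ae_map_iff (measurable_stepMap _ _).aemeasurable (Set.toFinite _).measurableSet]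
    exact ae_of_all _ fun a => ⟨a, rfl⟩
  exact h1.quasiMeasurePreserving.ae h5

theorem process_fails (κ : ℕ) :
    walkLaw LAM STEP {ω : ℕ → St | ∃ f ∈ FF,
      (1 / 4 : ℝ) < |(1 / ((hor κ : ℕ) : ℝ)) * ∑ i ∈ Finset.range (hor κ), f (ω i)
        - ∫ y, f y ∂LAM|} = 1 := by
  set E := {ω : ℕ → St | ∃ f ∈ FF,
      (1 / 4 : ℝ) < |(1 / ((hor κ : ℕ) : ℝ)) * ∑ i ∈ Finset.range (hor κ), f (ω i)
        - ∫ y, f y ∂LAM|} with hE
  refine le_antisymm prob_le_one ?_
  have h1 : base LAM STEP (walk ⁻¹' E) ≤ walkLaw LAM STEP E :=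
    Measure.le_map_apply measurable_walk.aemeasurable E
  refine le_trans ?_ h1
  have h2 : ∀ᵐ ω ∂(base LAM STEP), ω ∈ walk ⁻¹' E := by
    filter_upwards [ae_steps κ] with ω hω
    choose ab hab using hω
    let c : Idx κ := (ω.1 κ, fun i => ab i)
    refine ⟨ff κ c, ⟨κ, c, rfl⟩, ?_⟩
    have h3 : ∀ j ∈ Finset.range (hor κ), ff κ c (walk ω j) = 1 := by
      intro j hj
      have hj' := Finset.mem_range.mp hj
      have h4 : walk ω j κ = traj κ c ⟨j, hj'⟩ := by
        unfold walk traj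
        rw [Pi.add_apply, Finset.sum_apply]
        simp only [c]
        congr 1
        have h5 : ∀ i : Fin (hor κ), stepMap (2 * hor κ) (pr κ) (ab i) = ω.2 i κ :=
          fun i => hab i
        simp_rw [h5]
        -- reindex
        refine Finset.sum_bij' (fun i hi => ⟨i, lt_trans (Finset.mem_range.mp hi) hj'⟩)
          (fun i _ => (i : ℕ)) ?_ ?_ ?_ ?_ ?_
        · intro i hi
          simp only [Finset.mem_filter, Finset.mem_univ, true_and]
          exact Finset.mem_range.mp hi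
        · intro i hi
          simp only [Finset.mem_filter, Finset.mem_univ, true_and] at hi
          exact Finset.mem_range.mpr hi
        · intro i hi; rfl
        · intro i hi; rfl
        · intro i hi; rfl
      have h6 : walk ω j ∈ Dset κ c := by
        unfold Dset Cset
        simp only [Set.mem_ofPred_eq]
        rw [h4]
        exact Finset.mem_image_of_mem _ (Finset.mem_univ _)
      unfold ff
      rw [if_pos h6]
    rw [Finset.sum_congr rfl h3, Finset.sum_const, Finset.card_range, nsmul_eq_mul, mul_one,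
      integral_ff]
    have hh : (0 : ℝ) < hor κ := by
      have : 0 < hor κ := by unfold hor; omega
      exact_mod_cast this
    rw [one_div_mul_cancel hh.ne']
    have h7 := LAM_real_le_quarter κ c
    rw [abs_of_nonneg (by linarith)]
    linarith
  have h3 : walk ⁻¹' E =ᵐ[base LAM STEP] (Set.univ : Set (St × (ℕ → St))) := by
    filter_upwards [h2] with ω hω
    exact propext ⟨fun _ => trivial, fun _ => hω⟩
  rw [measure_congr h3, measure_univ]

theorem FF_infinite : FF.Infinite := by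
  refine Set.infinite_of_injective_forall_mem (f := fun κ : ℕ => ff κ 0) ?_ ?_
  · intro κ κ' h
    by_contra hne
    -- a point which is zero at `κ` and nonzero at `κ'`
    let e : V κ' := fun _ => 1
    let x : St := Pi.single κ' e
    have hx : x κ = 0 := Pi.single_eq_of_ne hne e
    have hx' : x κ' = e := Pi.single_eq_same κ' e
    have hmem : ∀ κ'' : ℕ, Cset κ'' 0 = {0} := by
      intro κ''
      have htr : ∀ j, traj κ'' 0 j = 0 := by
        intro j
        unfold traj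
        have : ∀ i : Fin (hor κ''), stepMap (2 * hor κ'') (pr κ'') ((0 : Idx κ'').2 i) = 0 := by
          intro i
          funext a
          simp [stepMap]
        rw [Finset.sum_congr rfl fun i _ => this i, Finset.sum_const_zero, add_zero]
        rfl
      unfold Cset
      ext y
      simp only [Finset.mem_image, Finset.mem_univ, true_and, Finset.mem_singleton]
      constructor
      · rintro ⟨j, rfl⟩; exact htr j
      · rintro rfl; exact ⟨⟨0, by unfold hor; omega⟩, htr _⟩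
    have h1 : ff κ 0 x = 1 := by
      unfold ff Dset
      rw [if_pos]
      simp only [Set.mem_ofPred_eq]
      rw [hmem, hx]; simp
    have h2 : ff κ' 0 x = 0 := by
      unfold ff Dset
      rw [if_neg]
      simp only [Set.mem_ofPred_eq]
      rw [hmem, hx', Finset.mem_singleton]
      intro h0
      have h3 := congrFun h0 ⟨0, by unfold hor; omega⟩
      simp [e] at h3
    have h3 := congrFun h x
    simp only at h3
    rw [h1, h2] at h3
    norm_num at h3
  · intro κ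
    exact ⟨κ, 0, rfl⟩

end Pool.Agent.Lib_helper83.Alpha
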