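import Mathlib

set_option autoImplicit false

open scoped Classical

namespace Pool.Agent.Lib_helper83.Goddyn

variable {V : Type} [Fintype V]

/-- `G` is bridgeless: the ends of every edge stay connected after deleting that edge. -/
def Bridgeless (G : SimpleGraph V) : Prop :=
  ∀ a b : V, G.Adj a b → (G \ SimpleGraph.fromEdgeSet {s(a, b)}).Reachable a b

/-- The total weight of the edge cut `δ(S)`. -/
noncomputable def cutWeight (G : SimpleGraph V) (w : Sym2 V → ℕ) (S : Finset V) : ℕ :=
  ∑ u : V, ∑ v : V, if (u ∈ S ∧ v ∉ S ∧ G.Adj u v) then w s(u, v) else 0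

/-- `w` is eulerian: every edge cut has even total weight. -/
def EulerianWeight (G : SimpleGraph V) (w : Sym2 V → ℕ) : Prop :=
  ∀ S : Finset V, Even (cutWeight G w S)

/-- `w` is admissible: no edge has more than half of the total weight of an edge cut
containing it. -/
def AdmissibleWeight (G : SimpleGraph V) (w : Sym2 V → ℕ) : Prop :=
  ∀ (S : Finset V) (a b : V), a ∈ S → b ∉ S → G.Adj a b → 2 * w s(a, b) ≤ cutWeight G w S

/-- `(G, w)` has a faithful circuit cover: a finite family of circuits such that every edge `e`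
lies in exactly `w e` of them. -/
def HasFaithfulCircuitCover (G : SimpleGraph V) (w : Sym2 V → ℕ) : Prop :=
  ∃ (n : ℕ) (x : Fin n → V) (p : ∀ i, G.Walk (x i) (x i)), (∀ i, (p i).IsCycle) ∧
    ∀ a b : V, G.Adj a b → (Finset.univ.filter fun i => s(a, b) ∈ (p i).edges).card = w s(a, b)

end Pool.Agent.Lib_helper83.Goddyn
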