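import Mathlib

set_option autoImplicit false

namespace Pool.Agent.Lib_helper83.Pet

/-- Vertices: `(i, false)` on the outer 5-cycle, `(i, true)` on the inner 5-cycle. -/
abbrev PV : Type := ZMod 5 × Bool

/-- Boolean adjacency of the Petersen graph. -/
def adjB (a b : PV) : Bool :=
  match a, b with
  | (i, false), (j, false) => decide (j = i + 1) || decide (i = j + 1)
  | (i, true), (j, true) => decide (j = i + 2) || decide (i = j + 2)
  | (i, _), (j, _) => decide (i = j)

/-- The Petersen graph. -/
def petersen : SimpleGraph PV where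
  Adj a b := adjB a b = true
  symm := ⟨by decide⟩
  loopless := ⟨by decide⟩

instance : DecidableRel petersen.Adj := fun a b => inferInstanceAs (Decidable (adjB a b = true))

/-- The weight: `6` on the spokes, `3` on the two 5-cycles. -/
def wt : Sym2 PV → ℕ := Sym2.lift ⟨fun a b => if a.1 = b.1 then 6 else 3, by
  intro a b
  by_cases h : a.1 = b.1
  · simp [h]
  · have h' : ¬ b.1 = a.1 := fun h' => h h'.symm
    simp [h, h']⟩

theorem wt_mk (a b : PV) : wt s(a, b) = if a.1 = b.1 then 6 else 3 := rfl

/-- An alternative path from `a` to `b` (the vertices after `a`), for `a`, `b` adjacent. -/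
def pA (a b : PV) : List PV :=
  match a, b with
  | (i, false), (j, false) =>
    if j = i + 1 then [(i, true), (i + 3, true), (i + 1, true), (i + 1, false)]
    else [(i, true), (i + 2, true), (i + 4, true), (i + 4, false)]
  | (i, true), (j, true) =>
    if j = i + 2 then [(i, false), (i + 1, false), (i + 2, false), (i + 2, true)]
    else [(i, false), (i + 4, false), (i + 3, false), (i + 3, true)]
  | (i, false), (_, true) => [(i + 1, false), (i + 1, true), (i + 3, true), (i, true)]
  | (i, true), (_, false) => [(i + 3, true), (i + 1, true), (i + 1, false), (i, false)]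

/-- A second alternative path for spokes. -/
def pB (a _b : PV) : List PV :=
  match a with
  | (i, false) => [(i + 4, false), (i + 4, true), (i + 2, true), (i, true)]
  | (i, true) => [(i + 2, true), (i + 4, true), (i + 4, false), (i, false)]

/-- The darts of the path `a :: l`. -/
def dts (a : PV) : List PV → List (PV × PV)
  | [] => []
  | b :: l => (a, b) :: dts b l

/-- Boolean test that `a :: l` is a path in the Petersen graph ending at `b`. -/
def isPathB (a : PV) (l : List PV) (b : PV) : Bool :=
  match l with
  | [] => decide (a = b)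
  | c :: l => adjB a c && isPathB c l b

theorem pA_path : ∀ a b : PV, adjB a b = true → isPathB a (pA a b) b = true := by decide

theorem pA_nodup : ∀ a b : PV, adjB a b = true → ((a, b) :: dts a (pA a b)).Nodup := by
  decide +kernel

theorem pA_avoid : ∀ a b : PV, adjB a b = true →
    ∀ d ∈ dts a (pA a b), d ≠ (a, b) ∧ d ≠ (b, a) := by decide +kernel

theorem pB_path : ∀ a b : PV, adjB a b = true → a.1 = b.1 → isPathB a (pB a b) b = true := by
  decide +kernel

theorem pAB_nodup : ∀ a b : PV, adjB a b = true → a.1 = b.1 →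
    ((a, b) :: (dts a (pA a b) ++ dts a (pB a b))).Nodup := by decide +kernel

open scoped Classical in
/-- The contribution of the dart `(u, v)` to the weight of the cut of `S`. -/
noncomputable def cutF (S : Finset PV) (d : PV × PV) : ℕ :=
  if (d.1 ∈ S ∧ d.2 ∉ S ∧ petersen.Adj d.1 d.2) then wt s(d.1, d.2) else 0

theorem wt_ge (a b : PV) : 3 ≤ wt s(a, b) := by
  rw [wt_mk]; split_ifs <;> norm_num

/-- A path leaving `S` contributes at least `3` to the cut. -/
theorem path_cross (S : Finset PV) (l : List PV) : ∀ a b : PV, isPathB a l b = true →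
    a ∈ S → b ∉ S → 3 ≤ ((dts a l).map (cutF S)).sum := by
  induction l with
  | nil =>
    intro a b h ha hb
    simp only [isPathB, decide_eq_true_eq] at h
    exact absurd (h ▸ ha) hb
  | cons c l ih =>
    intro a b h ha hb
    simp only [isPathB, Bool.and_eq_true] at h
    simp only [dts, List.map_cons, List.sum_cons]
    by_cases hc : c ∈ S
    · have := ih c b h.2 hc hb
      omega
    · have h1 : cutF S (a, c) = wt s(a, c) := by
        unfold cutF
        rw [if_pos ⟨ha, hc, h.1⟩]
      have h2 := wt_ge a c
      omega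

theorem sum_nodup_le (S : Finset PV) (L : List (PV × PV)) (hL : L.Nodup) :
    (L.map (cutF S)).sum ≤ ∑ u : PV, ∑ v : PV, cutF S (u, v) := by
  rw [← Fintype.sum_prod_type']
  rw [← List.sum_toFinset _ hL]
  exact Finset.sum_le_sum_of_subset (Finset.subset_univ _)

/-- The cut condition. -/
theorem cut_condition (S : Finset PV) (a b : PV) (ha : a ∈ S) (hb : b ∉ S)
    (hab : petersen.Adj a b) : 2 * wt s(a, b) ≤ ∑ u : PV, ∑ v : PV, cutF S (u, v) := by
  have hab' : adjB a b = true := hab
  have h0 : cutF S (a, b) = wt s(a, b) := by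
    unfold cutF
    rw [if_pos ⟨ha, hb, hab⟩]
  have h1 := path_cross S (pA a b) a b (pA_path a b hab') ha hb
  by_cases h : a.1 = b.1
  · have h2 := path_cross S (pB a b) a b (pB_path a b hab' h) ha hb
    have h3 := sum_nodup_le S _ (pAB_nodup a b hab' h)
    simp only [List.map_cons, List.map_append, List.sum_cons, List.sum_append] at h3
    have h4 : wt s(a, b) = 6 := by rw [wt_mk, if_pos h]
    omega
  · have h3 := sum_nodup_le S _ (pA_nodup a b hab')
    simp only [List.map_cons, List.sum_cons] at h3
    have h4 : wt s(a, b) = 3 := by rw [wt_mk, if_neg h]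
    omega

/-- Bridgelessness. -/
theorem bridgeless (a b : PV) (hab : petersen.Adj a b) :
    (petersen \ SimpleGraph.fromEdgeSet {s(a, b)}).Reachable a b := by
  have key : ∀ (l : List PV) (c : PV), isPathB c l b = true →
      (∀ d ∈ dts c l, d ≠ (a, b) ∧ d ≠ (b, a)) →
      (petersen \ SimpleGraph.fromEdgeSet {s(a, b)}).Reachable c b := by
    intro l
    induction l with
    | nil =>
      intro c h _
      simp only [isPathB, decide_eq_true_eq] at h
      rw [h]
    | cons e l ih =>
      intro c h hd
      simp only [isPathB, Bool.and_eq_true] at h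
      simp only [dts, List.mem_cons, forall_eq_or_imp] at hd
      have h1 : (petersen \ SimpleGraph.fromEdgeSet {s(a, b)}).Adj c e := by
        rw [SimpleGraph.sdiff_adj, SimpleGraph.fromEdgeSet_adj]
        refine ⟨h.1, ?_⟩
        rintro ⟨hmem, -⟩
        rw [Set.mem_singleton_iff, Sym2.eq_iff] at hmem
        rcases hmem with ⟨h1, h2⟩ | ⟨h1, h2⟩
        · exact hd.1.1 (Prod.ext h1 h2)
        · exact hd.1.2 (Prod.ext h1 h2)
      exact h1.reachable.trans (ih e h.2 hd.2)
  exact key (pA a b) a (pA_path a b hab) (pA_avoid a b hab)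

theorem deg_sum : ∀ v : PV, (∑ u : PV, if petersen.Adj v u then wt s(v, u) else 0) = 12 := by
  decide

/-- The neighbours of a vertex. -/
theorem nbr_outer : ∀ (i : ZMod 5) (u : PV), petersen.Adj (i, false) u →
    u = (i, true) ∨ u = (i + 4, false) ∨ u = (i + 1, false) := by decide

theorem nbr_inner : ∀ (i : ZMod 5) (u : PV), petersen.Adj (i, true) u →
    u = (i, false) ∨ u = (i + 3, true) ∨ u = (i + 2, true) := by decide

/-- In a cycle, a used edge at `v` has a second used edge at `v`. -/
theorem second_edge {V : Type*} {G : SimpleGraph V} {x : V} {p : G.Walk x x} (hp : p.IsCycle)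
    {v u : V} (h : s(v, u) ∈ p.edges) : ∃ u', u' ≠ u ∧ G.Adj v u' ∧ s(v, u') ∈ p.edges := by
  have hv : v ∈ p.support := p.fst_mem_support_of_mem_edges h
  have h2 := hp.ncard_neighborSet_toSubgraph_eq_two hv
  have hu : u ∈ p.toSubgraph.neighborSet v := by
    rw [SimpleGraph.Subgraph.mem_neighborSet, SimpleGraph.Walk.adj_toSubgraph_iff_mem_edges]
    exact h
  obtain ⟨u', hu', hne⟩ := Set.exists_ne_of_one_lt_ncard (by omega : 1 <
    (p.toSubgraph.neighborSet v).ncard) u
  refine ⟨u', hne, ?_, ?_⟩
  · exact (SimpleGraph.Subgraph.mem_neighborSet _ _ _).mp hu' |>.adj_sub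
  · rw [← SimpleGraph.Walk.adj_toSubgraph_iff_mem_edges]
    exact hu'

end Pool.Agent.Lib_helper83.Pet
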