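import Mathlib
import Pool.Agent.Lib_helper83.PetersenWeight

set_option autoImplicit false

open scoped Classical

namespace Pool.Agent.Lib_helper83.Pet

/-- The bit recording whether the edge `ab` is used by the closed walk. -/
noncomputable def bit {x : PV} (p : petersen.Walk x x) (a b : PV) : ℕ :=
  if s(a, b) ∈ p.edges then 1 else 0

theorem bit_symm {x : PV} (p : petersen.Walk x x) (a b : PV) : bit p a b = bit p b a := by
  unfold bit; rw [Sym2.eq_swap]

theorem bit_le_one {x : PV} (p : petersen.Walk x x) (a b : PV) : bit p a b ≤ 1 := by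
  unfold bit; split_ifs <;> simp

theorem outer_le {x : PV} (p : petersen.Walk x x) (hp : p.IsCycle) (i : ZMod 5) :
    bit p (i, false) (i, true)
      ≤ bit p (i, false) (i + 4, false) + bit p (i, false) (i + 1, false) := by
  unfold bit
  by_cases h : s((i, false), (i, true)) ∈ p.edges
  · obtain ⟨u', hne, hadj, hmem⟩ := second_edge hp h
    rcases nbr_outer i u' hadj with rfl | rfl | rfl
    · exact absurd rfl hne
    · rw [if_pos h, if_pos hmem]; omega
    · rw [if_pos h, if_pos hmem]; omega
  · rw [if_neg h]; omega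

theorem inner_le {x : PV} (p : petersen.Walk x x) (hp : p.IsCycle) (i : ZMod 5) :
    bit p (i, true) (i, false)
      ≤ bit p (i, true) (i + 3, true) + bit p (i, true) (i + 2, true) := by
  unfold bit
  by_cases h : s((i, true), (i, false)) ∈ p.edges
  · obtain ⟨u', hne, hadj, hmem⟩ := second_edge hp h
    rcases nbr_inner i u' hadj with rfl | rfl | rfl
    · exact absurd rfl hne
    · rw [if_pos h, if_pos hmem]; omega
    · rw [if_pos h, if_pos hmem]; omega
  · rw [if_neg h]; omega

/-- The arithmetic core: an alternating circuit uses `0` or `4` spokes. -/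
theorem arith (s o n : ZMod 5 → ℕ) (hs : ∀ i, s i ≤ 1) (ho : ∀ i, o i ≤ 1)
    (hn : ∀ i, n i ≤ 1) (h1 : ∀ i, s i = o (i + 4) + o i) (h2 : ∀ i, s i = n (i + 3) + n i) :
    4 ∣ ∑ i, s i := by
  have e : ∑ i : ZMod 5, s i = s 0 + s 1 + s 2 + s 3 + s 4 := by
    rw [show (Finset.univ : Finset (ZMod 5)) = {0, 1, 2, 3, 4} from by decide]
    rw [Finset.sum_insert (by decide), Finset.sum_insert (by decide),
      Finset.sum_insert (by decide), Finset.sum_insert (by decide), Finset.sum_singleton]
    ring
  have a0 := h1 0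
  have a1 := h1 1
  have a2 := h1 2
  have a3 := h1 3
  have a4 := h1 4
  have b0 := h2 0
  have b1 := h2 1
  have b2 := h2 2
  have b3 := h2 3
  have b4 := h2 4
  rw [show (0 : ZMod 5) + 4 = 4 from by decide] at a0
  rw [show (1 : ZMod 5) + 4 = 0 from by decide] at a1
  rw [show (2 : ZMod 5) + 4 = 1 from by decide] at a2
  rw [show (3 : ZMod 5) + 4 = 2 from by decide] at a3
  rw [show (4 : ZMod 5) + 4 = 3 from by decide] at a4
  rw [show (0 : ZMod 5) + 3 = 3 from by decide] at b0
  rw [show (1 : ZMod 5) + 3 = 4 from by decide] at b1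
  rw [show (2 : ZMod 5) + 3 = 0 from by decide] at b2
  rw [show (3 : ZMod 5) + 3 = 1 from by decide] at b3
  rw [show (4 : ZMod 5) + 3 = 2 from by decide] at b4
  have c0 := hs 0
  have c1 := hs 1
  have c2 := hs 2
  have c3 := hs 3
  have c4 := hs 4
  have d0 := ho 0
  have d1 := ho 1
  have d2 := ho 2
  have d3 := ho 3
  have d4 := ho 4
  have f0 := hn 0
  have f1 := hn 1
  have f2 := hn 2
  have f3 := hn 3
  have f4 := hn 4
  rw [e]
  rcases (show o 0 = 0 ∨ o 0 = 1 by omega) with g0 | g0 <;>
  rcases (show o 1 = 0 ∨ o 1 = 1 by omega) with g1 | g1 <;>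
  rcases (show o 2 = 0 ∨ o 2 = 1 by omega) with g2 | g2 <;>
  rcases (show o 3 = 0 ∨ o 3 = 1 by omega) with g3 | g3 <;>
  rcases (show o 4 = 0 ∨ o 4 = 1 by omega) with g4 | g4 <;>
  omega

theorem no_cover : ¬ ∃ (n : ℕ) (x : Fin n → PV) (p : ∀ i, petersen.Walk (x i) (x i)),
      (∀ i, (p i).IsCycle) ∧
      ∀ a b : PV, petersen.Adj a b → ∑ i : Fin n, bit (p i) a b = wt s(a, b) := by
  rintro ⟨n, x, p, hp, hcov'⟩
  -- adjacency facts
  have adj1 : ∀ i : ZMod 5, petersen.Adj (i, false) (i, true) := by decide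
  have adj1' : ∀ i : ZMod 5, petersen.Adj (i, true) (i, false) := by decide
  have adj2 : ∀ i : ZMod 5, petersen.Adj (i, false) (i + 4, false) := by decide
  have adj3 : ∀ i : ZMod 5, petersen.Adj (i, false) (i + 1, false) := by decide
  have adj4 : ∀ i : ZMod 5, petersen.Adj (i, true) (i + 3, true) := by decide
  have adj5 : ∀ i : ZMod 5, petersen.Adj (i, true) (i + 2, true) := by decide
  have ne4 : ∀ i : ZMod 5, ¬ i = i + 4 := by decide
  have ne1 : ∀ i : ZMod 5, ¬ i = i + 1 := by decide
  have ne3 : ∀ i : ZMod 5, ¬ i = i + 3 := by decide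
  have ne2 : ∀ i : ZMod 5, ¬ i = i + 2 := by decide
  -- tightness at outer vertices
  have hout : ∀ (j : ZMod 5) (i : Fin n), bit (p i) (j, false) (j, true)
      = bit (p i) (j, false) (j + 4, false) + bit (p i) (j, false) (j + 1, false) := by
    intro j
    have h1 : ∑ i : Fin n, bit (p i) (j, false) (j, true) = ∑ i : Fin n,
        (bit (p i) (j, false) (j + 4, false) + bit (p i) (j, false) (j + 1, false)) := by
      rw [Finset.sum_add_distrib, hcov' _ _ (adj1 j), hcov' _ _ (adj2 j), hcov' _ _ (adj3 j),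
        wt_mk, wt_mk, wt_mk, if_pos rfl, if_neg (ne4 j), if_neg (ne1 j)]
    have h2 := (Finset.sum_eq_sum_iff_of_le (s := Finset.univ)
      (fun i _ => outer_le (p i) (hp i) j)).mp h1
    intro i
    exact h2 i (Finset.mem_univ i)
  have hinn : ∀ (j : ZMod 5) (i : Fin n), bit (p i) (j, true) (j, false)
      = bit (p i) (j, true) (j + 3, true) + bit (p i) (j, true) (j + 2, true) := by
    intro j
    have h1 : ∑ i : Fin n, bit (p i) (j, true) (j, false) = ∑ i : Fin n,
        (bit (p i) (j, true) (j + 3, true) + bit (p i) (j, true) (j + 2, true)) := by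
      rw [Finset.sum_add_distrib, hcov' _ _ (adj1' j), hcov' _ _ (adj4 j), hcov' _ _ (adj5 j),
        wt_mk, wt_mk, wt_mk, if_pos rfl, if_neg (ne3 j), if_neg (ne2 j)]
    have h2 := (Finset.sum_eq_sum_iff_of_le (s := Finset.univ)
      (fun i _ => inner_le (p i) (hp i) j)).mp h1
    intro i
    exact h2 i (Finset.mem_univ i)
  -- each circuit uses a multiple of four spokes
  have hdvd : ∀ i : Fin n, 4 ∣ ∑ j : ZMod 5, bit (p i) (j, false) (j, true) := by
    intro i
    refine arith (fun j => bit (p i) (j, false) (j, true))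
      (fun j => bit (p i) (j, false) (j + 1, false))
      (fun j => bit (p i) (j, true) (j + 2, true))
      (fun j => bit_le_one _ _ _) (fun j => bit_le_one _ _ _) (fun j => bit_le_one _ _ _) ?_ ?_
    · intro j
      rw [hout j i, bit_symm (p i) (j, false) (j + 4, false)]
      have : (j + 4 + 1 : ZMod 5) = j := by
        rw [add_assoc]; have : (4 + 1 : ZMod 5) = 0 := by decide
        rw [this, add_zero]
      rw [this]
    · intro j
      rw [bit_symm (p i) (j, false) (j, true), hinn j i, bit_symm (p i) (j, true) (j + 3, true)]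
      have : (j + 3 + 2 : ZMod 5) = j := by
        rw [add_assoc]; have : (3 + 2 : ZMod 5) = 0 := by decide
        rw [this, add_zero]
      rw [this]
  have htot : ∑ i : Fin n, ∑ j : ZMod 5, bit (p i) (j, false) (j, true) = 30 := by
    rw [Finset.sum_comm]
    have : ∀ j : ZMod 5, ∑ i : Fin n, bit (p i) (j, false) (j, true) = 6 := by
      intro j
      rw [hcov' _ _ (adj1 j), wt_mk, if_pos rfl]
    rw [Finset.sum_congr rfl fun j _ => this j]
    simp
  have h4 : 4 ∣ 30 := by
    rw [← htot]
    exact Finset.dvd_sum fun i _ => hdvd i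
  omega

end Pool.Agent.Lib_helper83.Pet
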