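import Mathlib
import Pool.Agent.Lib_helper83.PetersenMain
import Pool.Agent.Lib_helper83.GoddynDefs

set_option autoImplicit false

open scoped Classical

namespace Pool.Agent.Lib_helper83.Goddyn

open Pet

/-- The weight: `2k` on the spokes, `k` on the two 5-cycles. -/
noncomputable def wk (k : ℕ) (e : Sym2 PV) : ℕ := k * (wt e / 3)

theorem wk_mk (k : ℕ) (a b : PV) : wk k s(a, b) = if a.1 = b.1 then 2 * k else k := by
  unfold wk
  rw [wt_mk]
  split_ifs
  · rw [show 6 / 3 = 2 from rfl]; ring
  · rw [show 3 / 3 = 1 from rfl]; ring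

theorem three_mul_wk (k : ℕ) (a b : PV) : 3 * wk k s(a, b) = k * wt s(a, b) := by
  rw [wk_mk, wt_mk]; split_ifs <;> ring

theorem three_mul_cut (k : ℕ) (S : Finset PV) :
    3 * cutWeight petersen (wk k) S = k * ∑ u : PV, ∑ v : PV, cutF S (u, v) := by
  unfold cutWeight cutF
  rw [Finset.mul_sum, Finset.mul_sum]
  refine Finset.sum_congr rfl fun u _ => ?_
  rw [Finset.mul_sum, Finset.mul_sum]
  refine Finset.sum_congr rfl fun v _ => ?_
  simp only
  split_ifs
  · exact three_mul_wk k u v
  · simp

theorem admissible_wk (k : ℕ) : AdmissibleWeight petersen (wk k) := by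
  intro S a b ha hb hab
  have h1 := cut_condition S a b ha hb hab
  have h2 := three_mul_cut k S
  have h3 := three_mul_wk k a b
  have h4 := Nat.mul_le_mul_left k h1
  have h5 : k * (2 * wt s(a, b)) = 2 * (k * wt s(a, b)) := by ring
  rw [h5, ← h3, ← h2] at h4
  omega

/-- The weighted degree. -/
theorem deg_wk (k : ℕ) (v : PV) :
    (∑ u : PV, if petersen.Adj v u then wk k s(v, u) else 0) = 4 * k := by
  have h := deg_sum v
  have e : 3 * (∑ u : PV, if petersen.Adj v u then wk k s(v, u) else 0) = k * 12 := by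
    rw [← h, Finset.mul_sum, Finset.mul_sum]
    refine Finset.sum_congr rfl fun u _ => ?_
    by_cases hu : petersen.Adj v u
    · rw [if_pos hu, if_pos hu]; exact three_mul_wk k v u
    · rw [if_neg hu, if_neg hu]; ring
  omega

/-- Every cut has even weight: the sum of the weighted degrees of `S` counts the edges inside
`S` twice. -/
theorem eulerian_of_degrees {V : Type} [Fintype V] (G : SimpleGraph V) (w : Sym2 V → ℕ)
    (h : ∀ v, Even (∑ u : V, if G.Adj v u then w s(v, u) else 0)) : EulerianWeight G w := by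
  intro S
  let f : V → V → ℕ := fun u v => if G.Adj u v then w s(u, v) else 0
  have fsymm : ∀ u v, f u v = f v u := by
    intro u v
    simp only [f]
    by_cases huv : G.Adj u v
    · rw [if_pos huv, if_pos huv.symm, Sym2.eq_swap]
    · rw [if_neg huv, if_neg (fun h => huv h.symm)]
  have hcut : cutWeight G w S = ∑ u ∈ S, ∑ v ∈ Sᶜ, f u v := by
    unfold cutWeight
    have h1 : ∀ u, (∑ v : V, if (u ∈ S ∧ v ∉ S ∧ G.Adj u v) then w s(u, v) else 0)
        = if u ∈ S then ∑ v ∈ Sᶜ, f u v else 0 := by
      intro u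
      by_cases hu : u ∈ S
      · rw [if_pos hu, ← Finset.sum_subset (Finset.subset_univ Sᶜ)]
        · refine Finset.sum_congr rfl fun v hv => ?_
          have hv' : v ∉ S := Finset.mem_compl.mp hv
          simp only [f]
          by_cases huv : G.Adj u v
          · rw [if_pos ⟨hu, hv', huv⟩, if_pos huv]
          · rw [if_neg (fun h => huv h.2.2), if_neg huv]
        · intro v _ hv
          rw [if_neg]
          rintro ⟨-, h, -⟩
          exact hv (Finset.mem_compl.mpr h)
      · rw [if_neg hu]
        refine Finset.sum_eq_zero fun v _ => ?_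
        rw [if_neg (fun h => hu h.1)]
    rw [Finset.sum_congr rfl fun u _ => h1 u, Finset.sum_ite_mem, Finset.univ_inter]
  have hsplit : ∑ u ∈ S, ∑ v : V, f u v
      = ∑ u ∈ S, ∑ v ∈ S, f u v + ∑ u ∈ S, ∑ v ∈ Sᶜ, f u v := by
    rw [← Finset.sum_add_distrib]
    refine Finset.sum_congr rfl fun u _ => ?_
    rw [Finset.sum_add_sum_compl]
  have hin : Even (∑ u ∈ S, ∑ v ∈ S, f u v) := by
    have hself : ∀ u, f u u = 0 := by intro u; simp [f]
    have key : ∀ T : Finset V, Even (∑ u ∈ T, ∑ v ∈ T, f u v) := by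
      intro T
      induction T using Finset.induction_on with
      | empty => simp
      | insert a T ha ih =>
        rw [Finset.sum_insert ha, Finset.sum_insert ha, hself, zero_add]
        have h1 : ∑ u ∈ T, ∑ v ∈ insert a T, f u v
            = ∑ u ∈ T, f u a + ∑ u ∈ T, ∑ v ∈ T, f u v := by
          rw [← Finset.sum_add_distrib]
          refine Finset.sum_congr rfl fun u _ => ?_
          rw [Finset.sum_insert ha]
        rw [h1, ← add_assoc]
        refine Even.add ?_ ih
        have h2 : ∑ u ∈ T, f u a = ∑ v ∈ T, f a v := Finset.sum_congr rfl fun u _ => fsymm u a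
        rw [h2]
        exact ⟨_, rfl⟩
    exact key S
  have htot : Even (∑ u ∈ S, ∑ v : V, f u v) := Finset.even_sum _ fun u _ => h u
  rw [hcut]
  rw [hsplit] at htot
  exact (Nat.even_add.mp htot).mp hin

theorem eulerian_wk (k : ℕ) : EulerianWeight petersen (wk k) := by
  refine eulerian_of_degrees _ _ fun v => ?_
  have h := deg_wk k v
  have e : ∀ n : ℕ, n = 4 * k → Even n := by
    rintro n rfl
    exact ⟨2 * k, by ring⟩
  refine e _ ?_
  rw [← h]
  refine Finset.sum_congr rfl fun u _ => ?_
  congr

theorem bit_card {n : ℕ} {x : Fin n → PV} (p : ∀ i, petersen.Walk (x i) (x i)) (a b : PV) :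
    ∑ i : Fin n, bit (p i) a b = (Finset.univ.filter fun i => s(a, b) ∈ (p i).edges).card := by
  unfold bit
  rw [Finset.card_filter]

theorem no_cover_wk (k : ℕ) (hk : Odd k) : ¬ HasFaithfulCircuitCover petersen (wk k) := by
  rintro ⟨n, x, p, hp, hcov⟩
  have hcov' : ∀ a b : PV, petersen.Adj a b → ∑ i : Fin n, bit (p i) a b = wk k s(a, b) := by
    intro a b hab
    rw [bit_card]
    convert hcov a b hab
  have adj1 : ∀ i : ZMod 5, petersen.Adj (i, false) (i, true) := by decide
  have adj1' : ∀ i : ZMod 5, petersen.Adj (i, true) (i, false) := by decide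
  have adj2 : ∀ i : ZMod 5, petersen.Adj (i, false) (i + 4, false) := by decide
  have adj3 : ∀ i : ZMod 5, petersen.Adj (i, false) (i + 1, false) := by decide
  have adj4 : ∀ i : ZMod 5, petersen.Adj (i, true) (i + 3, true) := by decide
  have adj5 : ∀ i : ZMod 5, petersen.Adj (i, true) (i + 2, true) := by decide
  have ne4 : ∀ i : ZMod 5, ¬ i = i + 4 := by decide
  have ne1 : ∀ i : ZMod 5, ¬ i = i + 1 := by decide
  have ne3 : ∀ i : ZMod 5, ¬ i = i + 3 := by decide
  have ne2 : ∀ i : ZMod 5, ¬ i = i + 2 := by decide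
  have hout : ∀ (j : ZMod 5) (i : Fin n), bit (p i) (j, false) (j, true)
      = bit (p i) (j, false) (j + 4, false) + bit (p i) (j, false) (j + 1, false) := by
    intro j
    have h1 : ∑ i : Fin n, bit (p i) (j, false) (j, true) = ∑ i : Fin n,
        (bit (p i) (j, false) (j + 4, false) + bit (p i) (j, false) (j + 1, false)) := by
      rw [Finset.sum_add_distrib, hcov' _ _ (adj1 j), hcov' _ _ (adj2 j), hcov' _ _ (adj3 j),
        wk_mk, wk_mk, wk_mk, if_pos rfl, if_neg (ne4 j), if_neg (ne1 j)]
      ring
    have h2 := (Finset.sum_eq_sum_iff_of_le (s := Finset.univ)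
      (fun i _ => outer_le (p i) (hp i) j)).mp h1
    intro i
    exact h2 i (Finset.mem_univ i)
  have hinn : ∀ (j : ZMod 5) (i : Fin n), bit (p i) (j, true) (j, false)
      = bit (p i) (j, true) (j + 3, true) + bit (p i) (j, true) (j + 2, true) := by
    intro j
    have h1 : ∑ i : Fin n, bit (p i) (j, true) (j, false) = ∑ i : Fin n,
        (bit (p i) (j, true) (j + 3, true) + bit (p i) (j, true) (j + 2, true)) := by
      rw [Finset.sum_add_distrib, hcov' _ _ (adj1' j), hcov' _ _ (adj4 j), hcov' _ _ (adj5 j),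
        wk_mk, wk_mk, wk_mk, if_pos rfl, if_neg (ne3 j), if_neg (ne2 j)]
      ring
    have h2 := (Finset.sum_eq_sum_iff_of_le (s := Finset.univ)
      (fun i _ => inner_le (p i) (hp i) j)).mp h1
    intro i
    exact h2 i (Finset.mem_univ i)
  have hdvd : ∀ i : Fin n, 4 ∣ ∑ j : ZMod 5, bit (p i) (j, false) (j, true) := by
    intro i
    refine arith (fun j => bit (p i) (j, false) (j, true))
      (fun j => bit (p i) (j, false) (j + 1, false))
      (fun j => bit (p i) (j, true) (j + 2, true))
      (fun j => bit_le_one _ _ _) (fun j => bit_le_one _ _ _) (fun j => bit_le_one _ _ _) ?_ ?_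
    · intro j
      rw [hout j i, bit_symm (p i) (j, false) (j + 4, false)]
      have : (j + 4 + 1 : ZMod 5) = j := by
        rw [add_assoc]; have : (4 + 1 : ZMod 5) = 0 := by decide
        rw [this, add_zero]
      rw [this]
    · intro j
      rw [bit_symm (p i) (j, false) (j, true), hinn j i, bit_symm (p i) (j, true) (j + 3, true)]
      have : (j + 3 + 2 : ZMod 5) = j := by
        rw [add_assoc]; have : (3 + 2 : ZMod 5) = 0 := by decide
        rw [this, add_zero]
      rw [this]
  have htot : ∑ i : Fin n, ∑ j : ZMod 5, bit (p i) (j, false) (j, true) = 10 * k := by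
    rw [Finset.sum_comm]
    have : ∀ j : ZMod 5, ∑ i : Fin n, bit (p i) (j, false) (j, true) = 2 * k := by
      intro j
      rw [hcov' _ _ (adj1 j), wk_mk, if_pos rfl]
    rw [Finset.sum_congr rfl fun j _ => this j, Finset.sum_const, Finset.card_univ, ZMod.card]
    simp only [smul_eq_mul]
    ring
  have h4 : 4 ∣ 10 * k := by
    rw [← htot]
    exact Finset.dvd_sum fun i _ => hdvd i
  obtain ⟨m, rfl⟩ := hk
  omega

theorem bridgeless_petersen : Bridgeless petersen := bridgeless

theorem regular_petersen : ∀ v : PV, (petersen.neighborSet v).ncard = 3 := by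
  have h : ∀ v : PV, (Finset.univ.filter fun u => adjB v u = true).card = 3 := by decide
  intro v
  rw [← h v, ← Set.ncard_coe_finset]
  congr 1
  ext u
  simp [petersen]

/-- For every threshold `N` the Petersen graph has an admissible eulerian weight `≥ N` without a
faithful circuit cover. -/
theorem main : ∃ (V : Type) (_ : Fintype V) (G : SimpleGraph V), Bridgeless G ∧
    (∀ v : V, (G.neighborSet v).ncard = 3) ∧
    ∀ N : ℕ, ∃ w : Sym2 V → ℕ, (∀ a b : V, G.Adj a b → N ≤ w s(a, b)) ∧
      EulerianWeight G w ∧ AdmissibleWeight G w ∧ ¬ HasFaithfulCircuitCover G w := by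
  refine ⟨PV, inferInstance, petersen, bridgeless_petersen, regular_petersen, fun N => ?_⟩
  refine ⟨wk (2 * N + 1), ?_, eulerian_wk _, admissible_wk _, no_cover_wk _ ⟨N, rfl⟩⟩
  intro a b _
  rw [wk_mk]
  split_ifs <;> omega

end Pool.Agent.Lib_helper83.Goddyn
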